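import Pool.Agent.W_5d512e_alt.Defs
import Pool.Agent.W_MP_5d512e_h33.Main

/-!
# Task A1: the map `step` as a transducer with states `Fin (n + 1)`
-/

set_option autoImplicit false

namespace Pool.Agent.W_5d512e_alt

open Pool.Agent.W_MP_5d512e_h33

/-- The output function of the transducer: the state is the position modulo `n + 1`. -/
def cout {A : Type} (n : ℕ) (κ : A → A) (g : A → List A) (s : Fin (n + 1)) (x : A) : List A :=
  g (if s = Fin.last n then κ x else x)

private theorem A1_last (n j : ℕ) :
    (Fin.ofNat (n + 1) j = Fin.last n) ↔ (n + 1 ∣ j + 1) := by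
  rw [Fin.ext_iff]
  simp only [Fin.ofNat, Fin.val_last]
  constructor
  · intro h
    rw [Nat.dvd_iff_mod_eq_zero, Nat.add_mod, h]
    rcases Nat.eq_zero_or_pos n with h0 | h0
    · subst h0
      simp
    · rw [Nat.mod_eq_of_lt (show 1 < n + 1 by omega)]
      simp
  · intro h
    have h1 : j % (n + 1) < n + 1 := Nat.mod_lt _ (by omega)
    by_contra h2
    have h3 : (j + 1) % (n + 1) = j % (n + 1) + 1 := by
      rcases Nat.eq_zero_or_pos n with h0 | h0
      · omega
      · rw [Nat.add_mod, Nat.mod_eq_of_lt (show 1 < n + 1 by omega),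
          Nat.mod_eq_of_lt (by omega)]
    rw [Nat.dvd_iff_mod_eq_zero] at h
    omega

private theorem A1_succ (n j : ℕ) : Fin.ofNat (n + 1) j + 1 = Fin.ofNat (n + 1) (j + 1) := by
  apply Fin.ext
  simp [Fin.ofNat, Fin.val_add]

private theorem A1_foldl {d : ℕ} (n : ℕ) (κ : Fin d → Fin d) (g : Fin d → List (Fin d))
    (u : List (Fin d)) (j : ℕ) (l : List (Fin d)) :
    (List.foldl (fun (acc : Fin (n + 1) × List (Fin d)) (x : Fin d) =>
      (acc.1 + 1, acc.2 ++ cout n κ g acc.1 x)) (Fin.ofNat (n + 1) j, l) u).2 =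
      l ++ (u.mapIdx fun i x => if n + 1 ∣ j + i + 1 then κ x else x).flatMap g := by
  induction u generalizing j l with
  | nil => simp
  | cons x u ih =>
    rw [List.foldl_cons]
    simp only
    rw [A1_succ, ih, List.mapIdx_cons, List.flatMap_cons, List.append_assoc]
    congr 2
    · rw [cout]
      congr 1
      simp only [A1_last, Nat.add_zero]
    · congr 2
      funext i x
      rw [show j + 1 + i + 1 = j + (i + 1) + 1 by omega]

/-- TASK A1. More generally for `trans` started in the state `(j : Fin (n + 1))`, by induction on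
the word. -/
theorem step_eq_trans {d : ℕ} (n : ℕ) (κ : Fin d → Fin d) (g : Fin d → List (Fin d))
    (u : List (Fin d)) :
    step (n + 1) κ g u = trans (fun (s : Fin (n + 1)) (_ : Fin d) => s + 1) 0 (cout n κ g) u := by
  have h := A1_foldl n κ g u 0 []
  have h0 : Fin.ofNat (n + 1) 0 = 0 := by
    apply Fin.ext
    simp [Fin.ofNat]
  rw [h0] at h
  rw [Pool.Agent.W_MP_5d512e_h33.trans, h]
  simp [step, relabel]

theorem generates_iff {d : ℕ} (n : ℕ) (hn : 1 ≤ n) (κ : Fin d → Fin d) (g : Fin d → List (Fin d)) (a : Fin d)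
    (w : ℕ → Fin d) :
    Generates (n + 1) κ g a w ↔
      Iterates (fun (s : Fin (n + 1)) (_ : Fin d) => s + 1) 0 (cout n κ g) a w := by
  have e : step (n + 1) κ g = trans (fun (s : Fin (n + 1)) (_ : Fin d) => s + 1) 0
    (cout n κ g) := funext (step_eq_trans n κ g)
  constructor
  · rintro ⟨h1, h2, h3, h4⟩
    rw [e] at h2
    simp only [e] at h3 h4
    exact ⟨fun _ _ => h1 _, h2, h3, h4⟩
  · rintro ⟨h1, h2, h3, h4⟩
    refine ⟨fun x => ?_, ?_, ?_, ?_⟩
    · have h := h1 0 x
      rw [cout, if_neg] at h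
      · exact h
      · intro h0
        have := congrArg Fin.val h0
        simp at this
        omega
    · rw [e]
      exact h2
    · simpa only [e] using h3
    · simpa only [e] using h4

end Pool.Agent.W_5d512e_alt
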