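import Pool.Agent.W_5d512e_alt.Sy

/-!
# Task B1: runs of the simulating system on pads and test letters
-/

set_option autoImplicit false

namespace Pool.Agent.W_5d512e_alt.Al

open Pool.Agent.W_MP_5d512e_h33

variable {n d : ℕ} (Y : Sys (Fin (n + 1)) (Fin d)) (c : Fin d → Fin (n + 1))

private theorem B1_delta (s : Fin (n + 1)) (z : Al n d) : (X Y c).δ s z = s + 1 := rfl

private theorem B1_out (s : Fin (n + 1)) (z : Al n d) :
    (X Y c).out s z = gm Y c (if s = Fin.last n then kap z else z) := rfl

private theorem B1_one : Fin.ofNat (n + 1) 1 = (1 : Fin (n + 1)) := by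
  apply Fin.ext
  simp [Fin.ofNat]

/-- TASK B1 (all theorems of this file). By induction on `k`. -/
theorem run_pads (r : Fin (n + 1)) (k : ℕ) :
    run (X Y c).δ (X Y c).out r (List.replicate k .pd) =
      (r + Fin.ofNat (n + 1) k, List.replicate k .pd) := by
  induction k generalizing r with
  | zero =>
    have h : Fin.ofNat (n + 1) 0 = (0 : Fin (n + 1)) := rfl
    rw [h, add_zero]
    rfl
  | succ k ih =>
    have h : (X Y c).out r .pd = [.pd] := by
      rw [B1_out]
      split_ifs <;> rfl
    rw [List.replicate_succ, run_cons, ih, h, B1_delta]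
    refine Prod.ext ?_ rfl
    show r + 1 + Fin.ofNat (n + 1) k = r + Fin.ofNat (n + 1) (k + 1)
    rw [ofNat_add', B1_one, add_assoc, add_comm 1]

/-- By induction on `N` (`List.range_succ`, `run_append`). -/
theorem run_range (r : Fin (n + 1)) (f : ℕ → Al n d) (N : ℕ) :
    run (X Y c).δ (X Y c).out r ((List.range N).map f) =
      (r + Fin.ofNat (n + 1) N,
        (List.range N).flatMap fun i => (X Y c).out (r + Fin.ofNat (n + 1) i) (f i)) := by
  induction N with
  | zero =>
    have h : Fin.ofNat (n + 1) 0 = (0 : Fin (n + 1)) := rfl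
    rw [h, add_zero]
    rfl
  | succ N ih =>
    rw [List.range_succ, List.map_append, run_append, ih, List.flatMap_append]
    refine Prod.ext ?_ ?_
    · show (run (X Y c).δ (X Y c).out (r + Fin.ofNat (n + 1) N) [f N]).1 = _
      rw [run_singleton, B1_delta, ofNat_add', B1_one, add_assoc]
    · show _ ++ (run (X Y c).δ (X Y c).out (r + Fin.ofNat (n + 1) N) [f N]).2 = _
      rw [run_singleton]
      simp

private theorem B1_flat {α : Type} (F : ℕ → List α) (p : α) (k : ℕ) (h : ∀ i < k, F i = [p]) :
    (List.range k).flatMap F = List.replicate k p := by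
  induction k with
  | zero => rfl
  | succ k ih =>
    rw [List.range_succ, List.flatMap_append, ih fun i hi => h i (Nat.lt_succ_of_lt hi),
      List.replicate_succ']
    congr 1
    simp [h k (Nat.lt_succ_self k)]

private theorem B1_flat2 {α : Type} (F : ℕ → List α) (p : α) (w : List α) (j m : ℕ) (hj : F j = w)
    (h : ∀ i < j + 1 + m, i ≠ j → F i = [p]) :
    (List.range (j + 1 + m)).flatMap F = List.replicate j p ++ (w ++ List.replicate m p) := by
  rw [List.range_add, List.flatMap_append, List.range_succ, List.flatMap_append,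
    B1_flat F p j fun i hi => h i (by omega) (by omega), List.flatMap_map]
  have h2 : (List.range m).flatMap (fun i => F (j + 1 + i)) = List.replicate m p :=
    B1_flat _ p m fun i hi => h _ (by omega) (by omega)
  rw [h2]
  simp [hj]

/-- With `j = -1 - r`: the test letter number `j` is the only one which is marked. Split
`List.range (n + 1)` into the numbers below `j`, the number `j`, and the `n - j` others. -/
theorem run_hds (r : Fin (n + 1)) (x : Fin d) :
    run (X Y c).δ (X Y c).out r (hds x) =
      (r, List.replicate (-1 - r).val .pd ++ (gm Y c (.mk x (-1 - r)) ++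
        List.replicate (n - (-1 - r).val) .pd)) := by
  have hz : Fin.ofNat (n + 1) (n + 1) = (0 : Fin (n + 1)) := by
    apply Fin.ext
    simp [Fin.ofNat]
  have hlast : Fin.last n = (-1 : Fin (n + 1)) := by
    rw [eq_neg_iff_add_eq_zero]
    exact Fin.last_add_one n
  unfold hds
  rw [run_range, hz, add_zero]
  refine Prod.ext rfl ?_
  show (List.range (n + 1)).flatMap
      (fun i => (X Y c).out (r + Fin.ofNat (n + 1) i) (Al.hd x (Fin.ofNat (n + 1) i))) = _
  set j : Fin (n + 1) := -1 - r with hj
  have hjn : n + 1 = j.val + 1 + (n - j.val) := by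
    have := j.isLt
    omega
  have hrange : List.range (n + 1) = List.range (j.val + 1 + (n - j.val)) := congrArg List.range hjn
  rw [hrange]
  refine B1_flat2 _ _ _ _ _ ?_ ?_
  · rw [ofNat_val, B1_out, hlast, if_pos (by rw [hj]; abel)]
    rfl
  · intro i hi hij
    have hi : i < n + 1 := lt_of_lt_of_eq hi hjn.symm
    rw [B1_out, hlast, if_neg]
    · rfl
    · intro h
      apply hij
      have h1 : Fin.ofNat (n + 1) i = j := by
        rw [hj, ← h]
        abel
      rw [← h1]
      simp [Fin.ofNat, Nat.mod_eq_of_lt hi]

end Pool.Agent.W_5d512e_alt.Al
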