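import Pool.Agent.W_5d512e_alt.B1

/-!
# Task B2: cells
-/

set_option autoImplicit false

namespace Pool.Agent.W_5d512e_alt.Al

open Pool.Agent.W_MP_5d512e_h33

variable {n d : ℕ} {c : Fin d → Fin (n + 1)}

theorem B2_length_hds (x : Fin d) : (hds x : List (Al n d)).length = n + 1 := by
  simp [hds]

theorem B2_length_cell (x : Fin d) (l k : ℕ) : (cell x l k : List (Al n d)).length = l + ((n + 1) + k) := by
  unfold cell
  rw [List.length_append, List.length_append, List.length_replicate, List.length_replicate, B2_length_hds]

theorem B2_filterMap_pads (a : Fin d) (k : ℕ) :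
    (List.replicate k (Al.pd : Al n d)).filterMap (phi a) = [] := by
  induction k with
  | zero => rfl
  | succ k ih =>
    rw [List.replicate_succ, List.filterMap_cons]
    exact ih

theorem B2_filterMap_hds (a x : Fin d) : (hds x : List (Al n d)).filterMap (phi a) = [x] := by
  unfold hds
  rw [List.filterMap_map, List.range_succ_eq_map, List.filterMap_cons]
  have h0 : (phi a ∘ fun i => (Al.hd x (Fin.ofNat (n + 1) i) : Al n d)) 0 = some x := by
    show (if Fin.ofNat (n + 1) 0 = 0 then some x else none) = some x
    rw [if_pos]
    apply Fin.ext
    simp [Fin.ofNat]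
  rw [h0]
  have h1 : List.filterMap (phi a ∘ fun i => (Al.hd x (Fin.ofNat (n + 1) i) : Al n d))
      (List.map Nat.succ (List.range n)) = [] := by
    rw [List.filterMap_eq_nil_iff]
    intro i hi
    obtain ⟨j, hj, rfl⟩ := List.mem_map.1 hi
    rw [List.mem_range] at hj
    show (if Fin.ofNat (n + 1) (Nat.succ j) = 0 then some x else none) = none
    rw [if_neg]
    intro h
    have h2 := congrArg Fin.val h
    simp only [Fin.ofNat, Fin.val_zero] at h2
    rw [Nat.mod_eq_of_lt (by omega)] at h2
    omega
  rw [h1]

theorem B2_filterMap_cell (a x : Fin d) (l k : ℕ) : (cell x l k : List (Al n d)).filterMap (phi a) = [x] := by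
  unfold cell
  rw [List.filterMap_append, List.filterMap_append, B2_filterMap_pads, B2_filterMap_pads, B2_filterMap_hds]
  rfl

/-- TASK B2 (all theorems of this file). -/
theorem Cells.mono {B B' : ℕ} (hB : B ≤ B') {W : List (Fin d)} {V : List (Al n d)}
    (h : Cells c B W V) : Cells c B' W V := by
  induction h with
  | nil => exact Cells.nil
  | cons hl hk hlB hkB _ ih => exact Cells.cons hl hk (hlB.trans hB) (hkB.trans hB) ih

theorem Cells.append {B : ℕ} {W W' : List (Fin d)} {V V' : List (Al n d)} (h : Cells c B W V)
    (h' : Cells c B W' V') : Cells c B (W ++ W') (V ++ V') := by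
  induction h with
  | nil => exact h'
  | cons hl hk hlB hkB _ ih =>
    rw [List.cons_append, List.append_assoc]
    exact Cells.cons hl hk hlB hkB ih

theorem Cells.length_le {B : ℕ} {W : List (Fin d)} {V : List (Al n d)} (h : Cells c B W V) :
    V.length ≤ (2 * B + n + 1) * W.length := by
  induction h with
  | nil => simp
  | cons hl hk hlB hkB _ ih =>
    rw [List.length_append, B2_length_cell, List.length_cons, Nat.mul_succ]
    omega

theorem Cells.le_length {B : ℕ} {W : List (Fin d)} {V : List (Al n d)} (h : Cells c B W V) :
    W.length ≤ V.length := by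
  induction h with
  | nil => simp
  | cons hl hk hlB hkB _ ih =>
    rw [List.length_append, B2_length_cell, List.length_cons]
    omega

/-- The old letters in the cells. -/
theorem Cells.filterMap {B : ℕ} {W : List (Fin d)} {V : List (Al n d)} (h : Cells c B W V)
    (a : Fin d) : V.filterMap (phi a) = W := by
  induction h with
  | nil => rfl
  | cons hl hk hlB hkB _ ih =>
    rw [List.filterMap_append, B2_filterMap_cell, ih]
    rfl

/-- The cells of a word `u`, surrounded by pads: `l` pads before, where `l` is in the class `0`, and
`k` pads behind, where `k` is in the class `-t`. By induction on `u` (general `l`). -/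
theorem em_cells {B : ℕ} {t : Fin (n + 1)} {l k : ℕ} (hl : Fin.ofNat (n + 1) l = 0)
    (hk : Fin.ofNat (n + 1) k = -t) (hlB : l ≤ B) (hkB : k ≤ B) {u : List (Fin d)}
    (hu : u ≠ []) :
    Cells c (B + n) u (List.replicate l .pd ++ (em c t u ++ List.replicate k .pd)) := by
  induction u generalizing l with
  | nil => exact absurd rfl hu
  | cons y u ih =>
    cases u with
    | nil =>
      have e : List.replicate l Al.pd ++ ((em c t [y] : List (Al n d)) ++ List.replicate k Al.pd) =
          cell y l ((c y + t).val + k) ++ [] := by
        show List.replicate l Al.pd ++ ((List.replicate 0 Al.pd ++ (hds y ++ List.replicate (c y + t).val Al.pd)) ++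
          List.replicate k Al.pd) = (List.replicate l Al.pd ++ (hds y ++ List.replicate ((c y + t).val + k) Al.pd)) ++ []
        rw [List.replicate_zero, List.nil_append, List.append_nil, List.append_assoc, List.replicate_append_replicate]
      rw [e]
      refine Cells.cons hl ?_ (by omega) ?_ Cells.nil
      · rw [ofNat_add', ofNat_val, hk]
        exact add_neg_cancel_right _ _
      · have := (c y + t).isLt
        omega
    | cons z ys =>
      have e : List.replicate l Al.pd ++ ((em c t (y :: z :: ys) : List (Al n d)) ++ List.replicate k Al.pd) =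
          cell y l (c y).val ++ (List.replicate 0 Al.pd ++ (em c t (z :: ys) ++ List.replicate k Al.pd)) := by
        show List.replicate l Al.pd ++ (((List.replicate 0 Al.pd ++ (hds y ++ List.replicate (c y).val Al.pd)) ++
          em c t (z :: ys)) ++ List.replicate k Al.pd) = (List.replicate l Al.pd ++ (hds y ++
            List.replicate (c y).val Al.pd)) ++ (List.replicate 0 Al.pd ++ (em c t (z :: ys) ++ List.replicate k Al.pd))
        simp only [List.replicate_zero, List.nil_append, List.append_assoc]
      rw [e]
      refine Cells.cons hl (ofNat_val _) (by omega) ?_ (ih (l := 0) ?_ (Nat.zero_le _) (by simp))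
      · have := (c y).isLt
        omega
      · apply Fin.ext
        simp [Fin.ofNat]

end Pool.Agent.W_5d512e_alt.Al
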