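import Pool.Agent.W_5d512e_alt.B2

/-!
# Task B3: the image of a row of cells
-/

set_option autoImplicit false

namespace Pool.Agent.W_5d512e_alt.Al

open Pool.Agent.W_MP_5d512e_h33

variable {n d : ℕ} {Y : Sys (Fin (n + 1)) (Fin d)} {c : Fin d → Fin (n + 1)}

/-- TASK B3 (all theorems of this file). By `run_pads`, `run_hds` and the definition of `gm`: the
image is `l + j + (-j).val` pads, `em c (1 + j - c x) (Y.out (sg Y r) x)` with `j = -1 - r`
(so `sg Y (-1 - j) = sg Y r`), and `(n - j) + k` pads; use `em_cells` with `B + (n + 1)`. -/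
theorem run_cell {B : ℕ} (r : Fin (n + 1)) {x : Fin d} {l k : ℕ}
    (hl : Fin.ofNat (n + 1) l = 0) (hk : Fin.ofNat (n + 1) k = c x) (hlB : l ≤ B) (hkB : k ≤ B) :
    ∃ V, run (X Y c).δ (X Y c).out r (cell x l k) = (r + c x, V) ∧
      Cells c (B + 2 * (n + 1)) (Y.out (sg Y r) x) V := by
  have hj : sg Y (-1 - (-1 - r)) = sg Y r := by
    congr 1
    abel
  have hrun : run (X Y c).δ (X Y c).out r (cell x l k) = (r + c x,
      List.replicate (l + ((-1 - r).val + (-(-1 - r)).val)) .pd ++
        (em c (1 + (-1 - r) - c x) (Y.out (sg Y r) x) ++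
          List.replicate ((n - (-1 - r).val) + k) .pd)) := by
    have e1 := run_pads Y c r l
    rw [hl, add_zero] at e1
    have e2 := run_hds Y c r x
    have e3 := run_pads Y c r k
    rw [hk] at e3
    unfold cell
    rw [run_append, e1]
    simp only
    rw [run_append, e2]
    simp only
    rw [e3]
    simp only [gm, hj]
    rw [List.replicate_add, List.replicate_add, List.replicate_add]
    simp only [List.append_assoc]
  refine ⟨_, hrun, ?_⟩
  have hB : B + 2 * (n + 1) = (B + (n + 2)) + n := by ring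
  rw [hB]
  have hjn : (-1 - r).val ≤ n := Nat.lt_succ_iff.1 (-1 - r).isLt
  have hjn' : (-(-1 - r)).val ≤ n := Nat.lt_succ_iff.1 (-(-1 - r)).isLt
  have hsum : (-1 - r).val + (-(-1 - r)).val ≤ n + 1 := by
    have h1 : ((-1 - r) + (-(-1 - r))).val = 0 := by
      rw [add_neg_cancel]
      rfl
    rw [Fin.val_add] at h1
    have h2 := Nat.dvd_of_mod_eq_zero h1
    obtain ⟨q, hq⟩ := h2
    have h3 : q ≤ 1 := by
      by_contra hcon
      push Not at hcon
      have : (n + 1) * 2 ≤ (n + 1) * q := Nat.mul_le_mul_left _ hcon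
      omega
    have h4 : (n + 1) * q ≤ (n + 1) * 1 := Nat.mul_le_mul_left _ h3
    omega
  refine em_cells ?_ ?_ ?_ ?_ (Y.hne _ _)
  · rw [ofNat_add', ofNat_add', ofNat_val, ofNat_val, hl, add_neg_cancel, add_zero]
  · rw [ofNat_add', hk]
    have h1 : Fin.ofNat (n + 1) (n - (-1 - r).val) = -1 - (-1 - r) := by
      have h2 : Fin.ofNat (n + 1) ((n - (-1 - r).val) + ((-1 - r).val + 1)) = 0 := by
        have h3 : (n - (-1 - r).val) + ((-1 - r).val + 1) = n + 1 := by omega
        rw [h3]
        apply Fin.ext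
        simp [Fin.ofNat]
      rw [ofNat_add', ofNat_add', ofNat_val] at h2
      have h4 : Fin.ofNat (n + 1) 1 = 1 := rfl
      rw [h4] at h2
      rw [eq_sub_iff_add_eq, eq_neg_iff_add_eq_zero, add_assoc]
      exact h2
    rw [h1]
    abel
  · omega
  · omega

/-- By induction on `Cells`. -/
theorem run_cells (hc : ∀ s x, Y.δ s x = s + c x) {B : ℕ} {W : List (Fin d)}
    {V : List (Al n d)} (h : Cells c B W V) (r : Fin (n + 1)) :
    ∃ r' V', run (X Y c).δ (X Y c).out r V = (r', V') ∧
      sg Y r' = (run Y.δ Y.out (sg Y r) W).1 ∧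
      Cells c (B + 2 * (n + 1)) (run Y.δ Y.out (sg Y r) W).2 V' := by
  induction h generalizing r with
  | nil => exact ⟨r, [], rfl, rfl, Cells.nil⟩
  | @cons x l k W V hl hk hlB hkB h ih =>
    obtain ⟨V₁, h1, h2⟩ := run_cell (Y := Y) r hl hk hlB hkB
    obtain ⟨r', V₂, h3, h4, h5⟩ := ih (r + c x)
    have hst : Y.δ (sg Y r) x = sg Y (r + c x) := by
      rw [hc]
      unfold sg
      abel
    refine ⟨r', V₁ ++ V₂, ?_, ?_, ?_⟩
    · rw [run_append, h1]
      simp only
      rw [h3]
    · rw [run_cons, hst]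
      exact h4
    · rw [run_cons, hst]
      exact h2.append h5

/-- The first row: `em c 0 Y.u`. -/
theorem cells_u {B : ℕ} (hB : n ≤ B) : Cells c B Y.u (X Y c).u := by
  have h1 : Cells c (0 + n) Y.u (List.replicate 0 .pd ++ (em c 0 Y.u ++ List.replicate 0 .pd)) :=
    em_cells (t := 0) (by rfl) (by rw [neg_zero]; rfl) le_rfl le_rfl Y.hu
  simp only [List.replicate_zero, List.nil_append, List.append_nil] at h1
  exact h1.mono (by omega)

end Pool.Agent.W_5d512e_alt.Al
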