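import Pool.Agent.W_5d512e_alt.B3

/-!
# Task B4: the iterates
-/

set_option autoImplicit false

namespace Pool.Agent.W_5d512e_alt.Al

open Pool.Agent.W_MP_5d512e_h33

variable {n d : ℕ} {Y : Sys (Fin (n + 1)) (Fin d)} {c : Fin d → Fin (n + 1)}

/-- TASK B4 (all theorems of this file). By induction on `j`: `Sys.tr` of `a :: W` is
`a :: Y.u ++ (run Y.δ Y.out (Y.δ Y.q0 Y.a) W).2`, and `sg Y 1 = Y.δ Y.q0 Y.a`; use `run_cells`. -/
theorem rows (hc : ∀ s x, Y.δ s x = s + c x) (j : ℕ) :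
    ∃ W V, Y.tr^[j] [Y.a] = Y.a :: W ∧ (X Y c).tr^[j] [.st] = .st :: V ∧
      Cells c (2 * (n + 1) * (j + 1)) W V := by
  induction j with
  | zero => exact ⟨[], [], rfl, rfl, Cells.nil⟩
  | succ j ih =>
    obtain ⟨W, V, h1, h2, h3⟩ := ih
    obtain ⟨r', V', e1, -, e3⟩ := run_cells hc h3 (1 : Fin (n + 1))
    have hsg : sg Y (1 : Fin (n + 1)) = Y.δ Y.q0 Y.a := by
      unfold sg
      rw [add_sub_cancel_right]
    rw [hsg] at e3
    have hB : 2 * (n + 1) * (j + 1) + 2 * (n + 1) = 2 * (n + 1) * (j + 1 + 1) := by ring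
    rw [hB] at e3
    refine ⟨Y.u ++ (run Y.δ Y.out (Y.δ Y.q0 Y.a) W).2, (X Y c).u ++ V', ?_, ?_, ?_⟩
    · rw [Function.iterate_succ_apply', h1]
      show (run Y.δ Y.out Y.q0 (Y.a :: W)).2 = _
      rw [run_cons, Y.ha]
      rfl
    · rw [Function.iterate_succ_apply', h2]
      show (run (X Y c).δ (X Y c).out (X Y c).q0 ((X Y c).a :: V)).2 = _
      rw [run_cons, (X Y c).ha]
      have h4 : (X Y c).δ (X Y c).q0 (X Y c).a = (1 : Fin (n + 1)) := by
        show (0 : Fin (n + 1)) + 1 = 1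
        rw [zero_add]
      rw [h4, e1]
      rfl
    · refine Cells.append (cells_u ?_) e3
      have : n + 1 ≤ 2 * (n + 1) * (j + 1 + 1) := by nlinarith [Nat.zero_le (n * j), Nat.zero_le n, Nat.zero_le j]
      omega

/-- From `rows` and `Cells.length_le`. -/
theorem t_le (hc : ∀ s x, Y.δ s x = s + c x) (j : ℕ) :
    (X Y c).t j ≤ 6 * (n + 1) * (j + 1) * Y.t j := by
  obtain ⟨W, V, h1, h2, h3⟩ := rows (c := c) hc j
  have h4 : (X Y c).t j = V.length + 1 := by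
    show ((X Y c).tr^[j] [.st]).length = _
    rw [h2, List.length_cons]
  have h5 : Y.t j = W.length + 1 := by
    show (Y.tr^[j] [Y.a]).length = _
    rw [h1, List.length_cons]
  rw [h4, h5]
  have h6 := h3.length_le
  have h7 : 2 * (2 * (n + 1) * (j + 1)) + n + 1 ≤ 5 * (n + 1) * (j + 1) := by
    nlinarith [Nat.zero_le (n * j), Nat.zero_le n, Nat.zero_le j]
  have h8 : (2 * (2 * (n + 1) * (j + 1)) + n + 1) * W.length ≤ 5 * (n + 1) * (j + 1) * W.length :=
    Nat.mul_le_mul_right _ h7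
  have h9 : 1 ≤ (n + 1) * (j + 1) := Nat.mul_pos (Nat.succ_pos _) (Nat.succ_pos _)
  calc V.length + 1 ≤ 5 * (n + 1) * (j + 1) * W.length + (n + 1) * (j + 1) := by omega
    _ ≤ 6 * (n + 1) * (j + 1) * (W.length + 1) := by
        nlinarith [Nat.zero_le ((n + 1) * (j + 1) * W.length), h9]

end Pool.Agent.W_5d512e_alt.Al
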