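import Pool.Agent.W_5d512e_alt.B3

/-!
# Task B5: the queues
-/

set_option autoImplicit false

namespace Pool.Agent.W_5d512e_alt.Al

open Pool.Agent.W_MP_5d512e_h33

variable {n d : ℕ} {Y : Sys (Fin (n + 1)) (Fin d)} {c : Fin d → Fin (n + 1)}

private theorem B5_len (x : Fin d) (l k : ℕ) : (cell x l k : List (Al n d)).length = l + (n + 1) + k := by
  simp [cell, hds]
  omega

private theorem B5_inv {B : ℕ} {x : Fin d} {W : List (Fin d)} {V : List (Al n d)} (h : Cells c B (x :: W) V) :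
    ∃ l k V', Fin.ofNat (n + 1) l = 0 ∧ Fin.ofNat (n + 1) k = c x ∧ l ≤ B ∧ k ≤ B ∧ Cells c B W V' ∧
      V = cell x l k ++ V' := by
  cases h with
  | cons hl hk hlB hkB h => exact ⟨_, _, _, hl, hk, hlB, hkB, h, rfl⟩

/-- TASK B5. By induction on `i`. Start: `t = 0`. Step: the queue of the new system is
`cell x l k ++ V`, where `x` is the next letter of the old queue; reading the cell takes
`l + (n + 1) + k ≤ 6 * (n + 1) * (i + 1)` steps (`read_block`, `run_cell`). -/
theorem queue (hc : ∀ s x, Y.δ s x = s + c x) (i : ℕ) :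
    ∃ t r V T, (X Y c).st t = (r, V, T) ∧ sg Y r = (Y.st i).1 ∧
      Cells c (2 * (n + 1) * (i + 1)) (Y.st i).2.1 V ∧ T.filterMap (phi Y.a) = Y.T i ∧ i ≤ t ∧
      t ≤ 6 * (n + 1) * (i + 1) ^ 2 := by
  induction i with
  | zero =>
    have h1 : Cells c (2 * (n + 1) * (0 + 1)) Y.u (X Y c).u := cells_u (by omega)
    refine ⟨0, 1, (X Y c).u, .st :: (X Y c).u, ?_, ?_, h1, ?_, le_rfl, Nat.zero_le _⟩
    · rw [Sys.st_zero]
      show ((0 : Fin (n + 1)) + 1, (X Y c).u, (X Y c).a :: (X Y c).u) = _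
      rw [zero_add]
      rfl
    · rw [Sys.st_zero]
      show Y.δ Y.q0 Y.a + 1 - 1 = Y.δ Y.q0 Y.a
      rw [add_sub_cancel_right]
    · have h2 : phi Y.a (.st : Al n d) = some Y.a := rfl
      rw [List.filterMap_cons_some h2, h1.filterMap]
      rfl
  | succ i ih =>
    obtain ⟨t, r, V, T, h1, h2, h3, h4, h5, h6⟩ := ih
    obtain ⟨x, g1, g2, g3⟩ := Y.T_succ i
    rw [g2] at h3
    obtain ⟨l, k, V', hl, hk, hlB, hkB, h7, rfl⟩ := B5_inv h3
    obtain ⟨V2, h8, h9⟩ := run_cell (Y := Y) (c := c) r hl hk hlB hkB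
    have e1 : 2 * (n + 1) * (i + 1) + 2 * (n + 1) = 2 * (n + 1) * (i + 1 + 1) := by ring
    rw [e1, h2] at h9
    refine ⟨t + (cell x l k : List (Al n d)).length, r + c x, V' ++ V2, T ++ V2, ?_, ?_, ?_, ?_, ?_, ?_⟩
    · have h10 : (X Y c).st (t + (cell x l k : List (Al n d)).length) =
          (qstep (X Y c).δ (X Y c).out)^[(cell x l k : List (Al n d)).length] ((X Y c).st t) := seq_add _ _ _ _ _
      rw [h10, h1, read_block, h8]
    · rw [g3]
      show sg Y (r + c x) = Y.δ (Y.st i).1 x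
      rw [hc, ← h2]
      unfold sg
      abel
    · rw [g3]
      refine Cells.append (Cells.mono ?_ h7) h9
      rw [← e1]
      exact Nat.le_add_right _ _
    · rw [List.filterMap_append, h4, h9.filterMap, g1]
    · rw [B5_len]
      omega
    · rw [B5_len]
      have e2 : l + (n + 1) + k ≤ 2 * (n + 1) * (i + 1) + (n + 1) + 2 * (n + 1) * (i + 1) := by omega
      calc t + (l + (n + 1) + k)
          ≤ 6 * (n + 1) * (i + 1) ^ 2 + (2 * (n + 1) * (i + 1) + (n + 1) + 2 * (n + 1) * (i + 1)) := by omega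
        _ ≤ 6 * (n + 1) * (i + 1 + 1) ^ 2 := by nlinarith [Nat.zero_le (n * i), Nat.zero_le n, Nat.zero_le i]

end Pool.Agent.W_5d512e_alt.Al
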