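import Pool.Agent.W_5d512e_h80.Final

/-!
# Filters and polynomial time
-/

set_option autoImplicit false

namespace Pool.Agent.W_5d512e_alt

open Pool.Agent.W_MP_5d512e_h33 Pool.Agent.W_5d512e_h80 Pool.Agent.W_MP_5d512e_lc

/-- The infinite word `w` is generated by a multi-tape machine in polynomial time (`Gen T S w`: a
machine generates `w` such that the first `n` letters are output within `T n` steps and in the
first `S n` cells of the tapes). -/
def PolyTime {d : ℕ} (w : ℕ → Fin d) : Prop :=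
  ∃ (C : ℕ) (S : ℕ → ℕ), Gen (fun n => C * (n + 1) ^ C) S w

theorem P1_le {a b : ℕ} (h : a ≤ b) {D d : ℕ} (W : ℕ → Fin D) (φ : Fin D → Option (Fin d)) :
    (((List.range a).map W).filterMap φ).length ≤ (((List.range b).map W).filterMap φ).length :=
  ((prefix_range W h).filterMap φ).length_le

theorem filterOf_of_poly {D d : ℕ} {W : ℕ → Fin D} {w : ℕ → Fin d}
    (φ : Fin D → Option (Fin d)) (B e : ℕ)
    (h1 : ∀ (N j : ℕ) (h : j < (((List.range N).map W).filterMap φ).length),
      (((List.range N).map W).filterMap φ)[j] = w j)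
    (h2 : ∀ n : ℕ, n ≤ (((List.range (B * (n + 1) ^ e)).map W).filterMap φ).length) :
    FilterOf W w := by
  refine ⟨φ, B + e, h1, fun n => (h2 n).trans (P1_le ?_ W φ)⟩
  exact Nat.mul_le_mul (Nat.le_add_right _ _) (Nat.pow_le_pow_right (by omega)
    (Nat.le_add_left _ _))

theorem FilterOf.trans {D' D d : ℕ} {W : ℕ → Fin D'} {V : ℕ → Fin D} {w : ℕ → Fin d}
    (h : FilterOf W V) (h' : FilterOf V w) : FilterOf W w := by
  obtain ⟨φ, C, a1, a2⟩ := h
  obtain ⟨ψ, C', b1, b2⟩ := h'
  have key : ∀ N, ((List.range N).map W).filterMap (fun x => (φ x).bind ψ) =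
      ((List.range (((List.range N).map W).filterMap φ).length).map V).filterMap ψ := by
    intro N
    rw [← List.filterMap_filterMap]
    congr 1
    exact out_eq (a1 N)
  have hb : ∀ n : ℕ, C * (C' * (n + 1) ^ C' + 1) ^ C ≤
      (C * (C' + 2) ^ C + C' * C) * (n + 1) ^ (C * (C' + 2) ^ C + C' * C) := fun n =>
    le_trans (Nat.mul_le_mul_left _ (Nat.pow_le_pow_left (by omega) _)) (Filter_arith2 C' C n)
  refine ⟨fun x => (φ x).bind ψ, C * (C' + 2) ^ C + C' * C, ?_, ?_⟩
  · intro N i hi
    have e := key N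
    have hi' : i < (((List.range (((List.range N).map W).filterMap φ).length).map V).filterMap
        ψ).length := by
      rw [← e]
      exact hi
    rw [← b1 _ i hi']
    congr 1
  · intro n
    refine le_trans ?_ (P1_le (hb n) W _)
    rw [key]
    exact (b2 n).trans (P1_le (a2 _) V ψ)

theorem PolyTime.filter {D d : ℕ} {W : ℕ → Fin D} {w : ℕ → Fin d} (hf : FilterOf W w)
    (h : PolyTime W) : PolyTime w := by
  obtain ⟨φ, C, h1, h2⟩ := hf
  obtain ⟨C0, S, hG⟩ := h
  exact ⟨C0 * (C + 2) ^ C0 + C * C0, fun n => S (C * (n + 1) ^ C + 1),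
    Filter_gen φ (fun n => C * (n + 1) ^ C) h1 h2 (fun n _ => Filter_arith2 C C0 n)
      (fun _ _ => le_rfl) hG⟩

/-- Words generated by iterating transducers are generated in linear time. -/
theorem polyTime_lim {p d : ℕ} (Y : Sys (Fin p) (Fin d)) : PolyTime Y.lim := by
  obtain ⟨C, hC⟩ := rows Y
  refine ⟨C + 1, _, hC.mono (fun n => ?_) (fun n => le_rfl)⟩
  have h1 : (n + 1) ^ 1 ≤ (n + 1) ^ (C + 1) := Nat.pow_le_pow_right (by omega) (by omega)
  rw [pow_one] at h1
  exact Nat.mul_le_mul (by omega) h1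

theorem exists_sys_of_iterates {D p : ℕ} {δ : Fin p → Fin D → Fin p} {q0 : Fin p}
    {out : Fin p → Fin D → List (Fin D)} {a : Fin D} {W : ℕ → Fin D}
    (hI : Iterates δ q0 out a W) : ∃ Y : Sys (Fin p) (Fin D), Y.lim = W := by
  have hta : trans δ q0 out [a] = out q0 a := by
    simp [Pool.Agent.W_MP_5d512e_h33.trans]
  obtain ⟨u, hu⟩ := hI.start
  rw [hta] at hu
  have hu' : out q0 a = a :: u := hu.symm
  have hne : u ≠ [] := by
    rintro rfl
    obtain ⟨n, hn⟩ := hI.unbounded 2
    have : ∀ n, (trans δ q0 out)^[n] [a] = [a] := by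
      intro n
      induction n with
      | zero => rfl
      | succ n ih => rw [Function.iterate_succ_apply', ih, hta, hu']
    rw [this] at hn
    simp at hn
  let Y : Sys (Fin p) (Fin D) := ⟨δ, out, q0, a, u, hI.nonerasing, hu', hne⟩
  refine ⟨Y, ?_⟩
  funext i
  have hlt : i < ((trans δ q0 out)^[i] [a]).length := Y.t_lt i
  rw [← hI.limit i i hlt]
  exact (Y.iterate_getElem i i hlt).symm

theorem sys_fin {S A : Type} [Finite S] [Finite A] (Y : Sys S A) :
    ∃ (p D : ℕ) (e : A ≃ Fin D) (Z : Sys (Fin p) (Fin D)), Z.lim = fun i => e (Y.lim i) := by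
  obtain ⟨p, ⟨f⟩⟩ := Finite.exists_equiv_fin S
  obtain ⟨D, ⟨e⟩⟩ := Finite.exists_equiv_fin A
  refine ⟨p, D, e, (mapS f Y).map e, ?_⟩
  funext i
  rw [← Sys.T_getElem (Y := (mapS f Y).map e) (i := i) (j := i)
    (by have := ((mapS f Y).map e).T_length i; omega)]
  have hT : ((mapS f Y).map e).T i = (Y.T i).map e := by
    rw [Sys.map_T]
    congr 1
    rw [Sys.T, mapS_st, Sys.T]
  have hi : i < (Y.T i).length := by have := Y.T_length i; omega
  rw [← Y.T_getElem hi]
  simp [hT]

/-- Words generated in polynomial time are filters of words generated by iterating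
transducers. -/
theorem sys_of_polyTime {d : ℕ} {w : ℕ → Fin d} (h : PolyTime w) :
    ∃ (p D : ℕ) (Y : Sys (Fin p) (Fin D)), FilterOf Y.lim w := by
  obtain ⟨C, S, m, k, g, δM, conf, c0, cs, co, cu, cb⟩ := h
  have hcf : ∀ t, conf t = cf (δM : Trans (Fin k) (Fin (m+1)) (Fin (g+1)) (Fin d)) 0 0 t := by
    intro t
    induction t with
    | zero => rw [c0]; rfl
    | succ t ih => rw [cs, cf_succ, ← ih]; rfl
  set δ : Trans (Fin k) (Fin (m+1)) (Fin (g+1)) (Fin d) := δM with hδ
  set Y := rsys δ 0 0 with hY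
  set L := Lq δ 0 0 with hL
  set τ := tq δ 0 0 with hτ
  have hK : ∀ i, Y.K (τ i) = L i := K_tq δ 0 0
  have hτs : ∀ i, τ (i + 1) = τ i + 2 * (L i + 1) := fun i => rfl
  have hLs : ∀ i, L (i + 1) ≤ L i + 1 := fun i => (Lq_succ δ 0 0 i).1
  obtain ⟨p, D, e, Z, hZ⟩ := sys_fin Y
  refine ⟨p, D, Z, ?_⟩
  rw [hZ]
  have hLt : ∀ t, L t ≤ t + 1 := by
    intro t
    induction t with
    | zero => exact le_of_eq rfl
    | succ t ih => have := hLs t; omega
  have hτt : ∀ t, t ≤ τ t := by
    intro t
    induction t with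
    | zero => exact Nat.zero_le _
    | succ t ih => have := hτs t; omega
  have hτb : ∀ t, τ t ≤ 2 * t * (t + 2) := by
    intro t
    induction t with
    | zero => exact Nat.zero_le _
    | succ t ih =>
      have h1 := hτs t
      have h2 := hLt t
      rw [h1]
      nlinarith
  refine filterOf_of (fun x => phi (e.symm x)) (fun t => (Y.T (τ t)).map e) ?_ ?_ ?_
    (C := 4 * (C + 1) ^ 2 + 2 * C) ?_
  · intro t
    apply List.ext_getElem
    · simp
    · intro i h1 h2
      have h3 : i < (Y.T (τ t)).length := by simpa using h1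
      simp [Y.T_getElem h3]
  · intro t
    simp only [List.length_map]
    have := Y.T_length (τ t)
    have := hτt t
    omega
  · intro t i hi
    have e1 : ((Y.T (τ t)).map e).filterMap (fun x => phi (e.symm x)) = (conf t).2.2.2 := by
      rw [List.filterMap_map, hcf t, ← filter_tq δ 0 0 t]
      congr 1
      funext x
      simp
    have hi' : i < (conf t).2.2.2.length := by rw [← e1]; exact hi
    rw [← co t i hi']
    simp only [e1]
  · intro n
    have e1 : ∀ t, ((Y.T (τ t)).map e).filterMap (fun x => phi (e.symm x)) = (conf t).2.2.2 := by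
      intro t
      rw [List.filterMap_map, hcf t, ← filter_tq δ 0 0 t]
      congr 1
      funext x
      simp
    obtain ⟨t, ht1, ht2⟩ : ∃ t, t ≤ C * (n + 1) ^ C ∧ n ≤ (conf t).2.2.2.length := by
      rcases Nat.eq_zero_or_pos n with h0 | h0
      · exact ⟨0, Nat.zero_le _, by omega⟩
      · classical
        have hex := cu n
        refine ⟨Nat.find hex, ?_, Nat.find_spec hex⟩
        exact (cb n (Nat.find hex) h0 (fun t' ht' => by
          have := Nat.find_min hex ht'
          omega)).1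
    refine ⟨t, ?_, ?_⟩
    · simp only [List.length_map]
      have h1 := Y.T_length (τ t)
      have h2 := hτb t
      have h3 := hLt t
      have h4 := hK t
      rw [h1, h4]
      have h5 : τ t + 1 + L t ≤ 4 * (t + 1) ^ 2 := by nlinarith
      refine h5.trans ?_
      have hp : 1 ≤ (n + 1) ^ C := Nat.one_le_pow _ _ (by omega)
      have h6 : t + 1 ≤ (C + 1) * (n + 1) ^ C := by
        have : (C + 1) * (n + 1) ^ C = C * (n + 1) ^ C + (n + 1) ^ C := by ring
        omega
      calc 4 * (t + 1) ^ 2 ≤ 4 * ((C + 1) * (n + 1) ^ C) ^ 2 :=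
            Nat.mul_le_mul_left _ (Nat.pow_le_pow_left h6 2)
        _ = 4 * (C + 1) ^ 2 * (n + 1) ^ (2 * C) := by ring
        _ ≤ (4 * (C + 1) ^ 2 + 2 * C) * (n + 1) ^ (4 * (C + 1) ^ 2 + 2 * C) :=
            Nat.mul_le_mul (by omega) (Nat.pow_le_pow_right (by omega) (by omega))
    · rw [e1]
      exact ht2

end Pool.Agent.W_5d512e_alt
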