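import Pool.Agent.W_5d512e_alt.B5
import Pool.Agent.W_5d512e_alt.P1

/-!
# The old word is a filter of the new word
-/

set_option autoImplicit false

namespace Pool.Agent.W_5d512e_alt.Al

open Pool.Agent.W_MP_5d512e_h33 Pool.Agent.W_5d512e_h80

variable {n d : ℕ} {Y : Sys (Fin (n + 1)) (Fin d)} {c : Fin d → Fin (n + 1)}

instance : Finite (Al n d) := by
  let f : Al n d → Unit ⊕ Unit ⊕ (Fin d × Fin (n + 1)) ⊕ (Fin d × Fin (n + 1)) := fun z =>
    match z with
    | .st => Sum.inl ()
    | .pd => Sum.inr (Sum.inl ())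
    | .hd x j => Sum.inr (Sum.inr (Sum.inl (x, j)))
    | .mk x j => Sum.inr (Sum.inr (Sum.inr (x, j)))
  apply Finite.of_injective f
  intro x y h
  cases x <;> cases y <;> simp_all [f]

theorem filterOf_X (hc : ∀ s x, Y.δ s x = s + c x) {D : ℕ} (e : Al n d ≃ Fin D) :
    FilterOf ((X Y c).map e).lim Y.lim := by
  obtain ⟨M, hM⟩ := Y.exists_bound
  have hget : ∀ (m i : ℕ) (hi : i < (((X Y c).map e).T m).length),
      (((X Y c).map e).T m)[i] = ((X Y c).map e).lim i :=
    fun m i hi => ((X Y c).map e).T_getElem hi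
  have hfil : ∀ m, (((X Y c).map e).T m).filterMap (fun x => phi Y.a (e.symm x)) =
      ((X Y c).T m).filterMap (phi Y.a) := by
    intro m
    rw [Sys.map_T, List.filterMap_map]
    congr 1
    funext x
    simp
  refine filterOf_of_poly (fun x => phi Y.a (e.symm x))
    (6 * (n + 1) + 1 + 5 * (n + 1) * (Y.K 0 + M)) 2 ?_ ?_
  · intro N j hj
    obtain ⟨t, r, V, T, h1, h2, h3, h4, h5, h6⟩ := queue hc N
    have hTt : (X Y c).T t = T := by rw [Sys.T, h1]
    have h7 : (List.range N).map ((X Y c).map e).lim <+: ((X Y c).map e).T t := by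
      have hl := ((X Y c).map e).T_length t
      have h8 : ((X Y c).map e).T t =
          (List.range (((X Y c).map e).T t).length).map ((X Y c).map e).lim :=
        out_eq (hget _)
      rw [h8]
      exact prefix_range _ (by omega)
    have h8 := h7.filterMap (fun x => phi Y.a (e.symm x))
    rw [hfil, hTt, h4] at h8
    rw [h8.getElem hj]
    exact Y.T_getElem _
  · intro i
    obtain ⟨t, r, V, T, h1, h2, h3, h4, h5, h6⟩ := queue hc i
    have hTt : (X Y c).T t = T := by rw [Sys.T, h1]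
    have hK : (X Y c).K t = V.length := by rw [Sys.K, h1]
    have hV := h3.length_le
    have hKi : (Y.st i).2.1.length ≤ (Y.K 0 + M) * (i + 1) := by
      have h9 := K_le Y hM i
      have h10 : (Y.st i).2.1.length = Y.K i := rfl
      rw [h10]
      nlinarith [Nat.zero_le (Y.K 0 * i)]
    have hV' : V.length ≤ 5 * (n + 1) * (Y.K 0 + M) * (i + 1) ^ 2 := by
      calc V.length ≤ (2 * (2 * (n + 1) * (i + 1)) + n + 1) * (Y.st i).2.1.length := hV
        _ ≤ (5 * (n + 1) * (i + 1)) * ((Y.K 0 + M) * (i + 1)) := by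
            apply Nat.mul_le_mul _ hKi
            nlinarith [Nat.zero_le (n * i)]
        _ = 5 * (n + 1) * (Y.K 0 + M) * (i + 1) ^ 2 := by ring
    have hlen : (((X Y c).map e).T t).length ≤
        (6 * (n + 1) + 1 + 5 * (n + 1) * (Y.K 0 + M)) * (i + 1) ^ 2 := by
      rw [((X Y c).map e).T_length, Sys.map_K, hK]
      have h9 : (6 * (n + 1) + 1 + 5 * (n + 1) * (Y.K 0 + M)) * (i + 1) ^ 2 =
          6 * (n + 1) * (i + 1) ^ 2 + (i + 1) ^ 2 +
            5 * (n + 1) * (Y.K 0 + M) * (i + 1) ^ 2 := by ring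
      have h10 : 1 ≤ (i + 1) ^ 2 := Nat.one_le_pow _ _ (by omega)
      rw [h9]
      omega
    have h9 := prefix_iff_range (W := ((X Y c).map e).lim) (hget t) _ hlen
    have h10 := (h9.filterMap (fun x => phi Y.a (e.symm x))).length_le
    rw [hfil, hTt, h4, Y.T_length] at h10
    omega

end Pool.Agent.W_5d512e_alt.Al
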