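import Pool.Agent.W_MP_5d512e_h33.Defs

/-!
# Relabelling every m-th letter and then applying a morphism: definitions
-/

set_option autoImplicit false

namespace Pool.Agent.W_5d512e_alt

/-- Replace every `m`-th letter `x` of a word (the letters number `m`, `2 * m`, `3 * m`, ..., the
first letter has number `1`) by `κ x`. -/
def relabel {A : Type} (m : ℕ) (κ : A → A) (u : List A) : List A :=
  u.mapIdx fun i x => if m ∣ i + 1 then κ x else x

/-- Replace every `m`-th letter `x` by `κ x`, and then apply the morphism `g`. -/
def step {A : Type} (m : ℕ) (κ : A → A) (g : A → List A) (u : List A) : List A :=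
  (relabel m κ u).flatMap g

/-- `w` is the infinite word generated by iterating the map `step m κ g` on the letter `a`, where
`g` is a non-erasing morphism. -/
structure Generates {d : ℕ} (m : ℕ) (κ : Fin d → Fin d) (g : Fin d → List (Fin d)) (a : Fin d)
    (w : ℕ → Fin d) : Prop where
  nonerasing : ∀ x, g x ≠ []
  start : [a] <+: step m κ g [a]
  unbounded : ∀ N : ℕ, ∃ n : ℕ, N ≤ ((step m κ g)^[n] [a]).length
  limit : ∀ (n i : ℕ) (h : i < ((step m κ g)^[n] [a]).length), ((step m κ g)^[n] [a])[i] = w i

end Pool.Agent.W_5d512e_alt
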