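import Pool.Agent.W_5d512e_alt.GDefs

/-!
# Task G2: labelled words
-/

set_option autoImplicit false

namespace Pool.Agent.W_5d512e_alt

variable {A : Type} {m : ℕ} {κ : A → A} {g : A → List A}

private theorem G2_lab_cons (j : ℕ) (x : A) (u : List A) :
    lab m j (x :: u) = (x, (j : ZMod m)) :: lab m (j + 1) u := by
  unfold lab
  rw [List.mapIdx_cons]
  congr 1
  congr 1
  funext i y
  rw [show j + (i + 1) = j + 1 + i by omega]

open Classical in
private theorem G2_gl (j : ℕ) (x : A) :
    gl m κ g (x, (j : ZMod m)) = g (if m ∣ j + 1 then κ x else x) := by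
  unfold gl
  have h : ((j : ZMod m) + 1 = 0) ↔ m ∣ j + 1 := by
    rw [← ZMod.natCast_eq_zero_iff (j + 1) m]
    push_cast
    exact Iff.rfl
  by_cases hm : m ∣ j + 1
  · rw [if_pos hm, if_pos (h.2 hm)]
  · rw [if_neg hm, if_neg (fun h' => hm (h.1 h'))]

private theorem G2_img_cons (j : ℕ) (x : A) (u : List A) :
    img m κ g j (x :: u) = gl m κ g (x, (j : ZMod m)) ++ img m κ g (j + 1) u := by
  rw [G2_gl]
  unfold img
  have h : (fun i (y : A) => if m ∣ j + (i + 1) + 1 then κ y else y) =
      fun i (y : A) => if m ∣ j + 1 + i + 1 then κ y else y := by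
    funext i y
    rw [show j + (i + 1) + 1 = j + 1 + i + 1 by omega]
  rw [List.mapIdx_cons, List.flatMap_cons, h, Nat.add_zero]

/-- TASK G2 (all theorems of this file). -/
theorem img_eq_flatMap (j : ℕ) (u : List A) :
    img m κ g j u = (lab m j u).flatMap (gl m κ g) := by
  induction u generalizing j with
  | nil => simp [img, lab]
  | cons x u ih => rw [G2_img_cons, G2_lab_cons, List.flatMap_cons, ih]

theorem lab_fst (j : ℕ) (u : List A) : (lab m j u).map Prod.fst = u := by
  induction u generalizing j with
  | nil => simp [lab]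
  | cons x u ih => rw [G2_lab_cons, List.map_cons, ih]

theorem lab_length (j : ℕ) (u : List A) : (lab m j u).length = u.length := by
  simp [lab]

private theorem G2_gl_ne (hg : ∀ x, g x ≠ []) (z : A × ZMod m) : 1 ≤ (gl m κ g z).length := by
  unfold gl
  exact List.length_pos_of_ne_nil (hg _)

private theorem G2_le (hg : ∀ x, g x ≠ []) (j : ℕ) (u : List A) :
    u.length ≤ (img m κ g j u).length := by
  induction u generalizing j with
  | nil => simp
  | cons x u ih =>
    rw [G2_img_cons, List.length_append, List.length_cons]
    have h1 := G2_gl_ne (κ := κ) hg (x, (j : ZMod m))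
    have h2 := ih (j + 1)
    omega

/-- If the image is not longer, then all images of letters have length one. -/
theorem gl_of_length (hg : ∀ x, g x ≠ []) {j : ℕ} {u : List A}
    (h : (img m κ g j u).length = u.length) :
    ∀ z ∈ lab m j u, (gl m κ g z).length = 1 := by
  induction u generalizing j with
  | nil => simp [lab]
  | cons x u ih =>
    rw [G2_img_cons, List.length_append, List.length_cons] at h
    have h1 := G2_gl_ne (κ := κ) hg (x, (j : ZMod m))
    have h2 := G2_le (m := m) (κ := κ) hg (j + 1) u
    intro z hz
    rw [G2_lab_cons, List.mem_cons] at hz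
    rcases hz with hz | hz
    · rw [hz]
      omega
    · exact ih (j := j + 1) (by omega) z hz

theorem length_of_gl {j : ℕ} {u : List A} (h : ∀ z ∈ lab m j u, (gl m κ g z).length = 1) :
    (img m κ g j u).length = u.length := by
  induction u generalizing j with
  | nil => simp [img]
  | cons x u ih =>
    rw [G2_lab_cons] at h
    rw [G2_img_cons, List.length_append, List.length_cons, h _ (List.mem_cons_self),
      ih (j := j + 1) (fun z hz => h z (List.mem_cons_of_mem _ hz))]
    omega

private theorem G2_step (L : ℕ) {j : ℕ} {u : List A}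
    (h : ∀ z ∈ lab m j u, (gl m κ g z).length = 1) :
    lab m (j + L) (img m κ g j u) = (lab m j u).map (tl m κ g L) := by
  induction u generalizing j with
  | nil => simp [img, lab]
  | cons x u ih =>
    rw [G2_lab_cons] at h
    have h1 := h _ (List.mem_cons_self)
    have h2 := ih (j := j + 1) (fun z hz => h z (List.mem_cons_of_mem _ hz))
    obtain ⟨y, hy⟩ := List.length_eq_one_iff.1 h1
    rw [G2_img_cons, hy, G2_lab_cons, List.map_cons, List.singleton_append, G2_lab_cons,
      show j + L + 1 = j + 1 + L by omega, h2]
    congr 1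
    unfold tl
    rw [hy]
    simp

theorem lab_step {j : ℕ} {u : List A} (h : ∀ z ∈ lab m j u, (gl m κ g z).length = 1) :
    lab m (j + u.length) (img m κ g j u) = (lab m j u).map (tl m κ g u.length) :=
  G2_step u.length h

end Pool.Agent.W_5d512e_alt
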