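import Pool.Agent.W_5d512e_alt.G1
import Pool.Agent.W_5d512e_alt.G2

/-!
# Task G5: rows of bounded length give an ultimately periodic word
-/

set_option autoImplicit false

namespace Pool.Agent.W_5d512e_alt

variable {A : Type} {m : ℕ} {κ : A → A} {g : A → List A} {pre row : ℕ → List A}

private lemma G5_img_congr (m : ℕ) (κ : A → A) (g : A → List A) {j j' : ℕ}
    (hj : (j : ZMod m) = (j' : ZMod m)) (u : List A) : img m κ g j u = img m κ g j' u := by
  unfold img
  congr 1
  refine congrArg (fun f => List.mapIdx f u) ?_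
  funext i x
  have h1 : (m ∣ j + i + 1) ↔ (m ∣ j' + i + 1) := by
    rw [← ZMod.natCast_eq_zero_iff, ← ZMod.natCast_eq_zero_iff]
    push_cast
    rw [hj]
  by_cases h2 : m ∣ j + i + 1
  · rw [if_pos h2, if_pos (h1.1 h2)]
  · rw [if_neg h2, if_neg (fun h3 => h2 (h1.2 h3))]

private lemma G5_row_ne (h : Rows m κ g pre row) (n : ℕ) : row n ≠ [] := by
  induction n with
  | zero => exact h.row0
  | succ n ih =>
    have h1 := img_length_le (m := m) (κ := κ) h.hg (pre n).length (row n)
    rw [← h.row_succ n] at h1
    have h2 := List.length_pos_iff.2 ih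
    exact List.length_pos_iff.1 (lt_of_lt_of_le h2 h1)

private lemma G5_tail (h : Rows m κ g pre row) {n1 n2 : ℕ} (hr : row n1 = row n2)
    (hp : ((pre n1).length : ZMod m) = ((pre n2).length : ZMod m)) (k : ℕ) :
    ∃ R : List A, k ≤ R.length ∧ pre (n1 + k) = pre n1 ++ R ∧ pre (n2 + k) = pre n2 ++ R ∧
      row (n1 + k) = row (n2 + k) ∧
      ((pre (n1 + k)).length : ZMod m) = ((pre (n2 + k)).length : ZMod m) := by
  induction k with
  | zero => exact ⟨[], by simp, by simp, by simp, hr, hp⟩
  | succ k ih =>
    obtain ⟨R, h1, h2, h3, h4, h5⟩ := ih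
    have e1 : n1 + (k + 1) = n1 + k + 1 := by omega
    have e2 : n2 + (k + 1) = n2 + k + 1 := by omega
    refine ⟨R ++ row (n1 + k), ?_, ?_, ?_, ?_, ?_⟩
    · rw [List.length_append]
      have := List.length_pos_iff.2 (G5_row_ne h (n1 + k))
      omega
    · rw [e1, h.pre_succ, h2, List.append_assoc]
    · rw [e2, h.pre_succ, h3, h4, List.append_assoc]
    · rw [e1, e2, h.row_succ, h.row_succ, h4]
      exact G5_img_congr m κ g h5 _
    · rw [e1, e2, h.pre_succ, h.pre_succ, List.length_append, List.length_append]
      push_cast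
      rw [h5, h4]

/-- TASK G5. The pairs `(row n, |pre n| mod m)` are in a finite set, so two of them agree, for
`n1 < n2`; `img` depends only on the residue of `j`, so all the following rows agree and
`w (|pre n1| + i) = w (|pre n2| + i)`. -/
theorem periodic_of_bounded [Finite A] [NeZero m] (h : Rows m κ g pre row) {w : ℕ → A}
    (hw : ∀ (n i : ℕ) (hi : i < (pre n).length), (pre n)[i] = w i) {B : ℕ}
    (hB : ∀ n, (row n).length ≤ B) : ∃ N P : ℕ, 0 < P ∧ ∀ i ≥ N, w (i + P) = w i := by
  classical
  have hfin : (Set.univ ×ˢ {l : List A | l.length ≤ B} : Set (ZMod m × List A)).Finite :=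
    Set.Finite.prod Set.finite_univ (List.finite_length_le A B)
  have hmap : Set.MapsTo (fun n : ℕ => (((pre n).length : ZMod m), row n)) Set.univ
      (Set.univ ×ˢ {l : List A | l.length ≤ B} : Set (ZMod m × List A)) :=
    fun n _ => ⟨Set.mem_univ _, hB n⟩
  obtain ⟨n1, -, n2, -, hne, heq⟩ :=
    Set.infinite_univ.exists_ne_map_eq_of_mapsTo hmap hfin
  have key : ∀ n1 n2 : ℕ, n1 < n2 → row n1 = row n2 →
      ((pre n1).length : ZMod m) = ((pre n2).length : ZMod m) →
      ∃ N P : ℕ, 0 < P ∧ ∀ i ≥ N, w (i + P) = w i := by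
    intro n1 n2 hlt hr hp
    have hlen : (pre n1).length < (pre n2).length := by
      have hstep : ∀ n, (pre n).length < (pre (n + 1)).length := by
        intro n
        rw [h.pre_succ, List.length_append]
        have := List.length_pos_iff.2 (G5_row_ne h n)
        omega
      exact strictMono_nat_of_lt_succ hstep hlt
    refine ⟨(pre n1).length, (pre n2).length - (pre n1).length, by omega, fun i hi => ?_⟩
    obtain ⟨R, h1, h2, h3, -, -⟩ := G5_tail h hr hp (i + 1)
    have hiR : i - (pre n1).length < R.length := by omega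
    have ha : i < (pre (n1 + (i + 1))).length := by
      rw [h2, List.length_append]
      omega
    have hb : i + ((pre n2).length - (pre n1).length) < (pre (n2 + (i + 1))).length := by
      rw [h3, List.length_append]
      omega
    rw [← hw _ _ ha, ← hw _ _ hb]
    have ea : (pre (n1 + (i + 1)))[i]? = R[i - (pre n1).length]? := by
      rw [h2, List.getElem?_append_right hi]
    have eb : (pre (n2 + (i + 1)))[i + ((pre n2).length - (pre n1).length)]? =
        R[i - (pre n1).length]? := by
      rw [h3, List.getElem?_append_right (by omega)]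
      congr 1
      omega
    rw [List.getElem?_eq_getElem ha] at ea
    rw [List.getElem?_eq_getElem hb] at eb
    exact Option.some.inj (eb.trans ea.symm)
  have h1 := congrArg Prod.fst heq
  have h2 := congrArg Prod.snd heq
  rcases lt_or_gt_of_ne hne with hlt | hlt
  · exact key n1 n2 hlt h2 h1
  · exact key n2 n1 hlt h2.symm h1.symm

end Pool.Agent.W_5d512e_alt
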