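import Pool.Agent.W_5d512e_alt.G4
import Pool.Agent.W_5d512e_alt.G5

/-!
# Task G6: linear or at least quadratic growth
-/

set_option autoImplicit false

namespace Pool.Agent.W_5d512e_alt

variable {A : Type} {m : ℕ} {κ : A → A} {g : A → List A} {pre row : ℕ → List A}

/-- TASK G6. Arithmetic: a monotone sequence which grows at least by one in every `D` steps. -/
theorem quadratic_of_growing {L T : ℕ → ℕ} (hL : ∀ n, L n ≤ L (n + 1)) {D : ℕ}
    (hD : ∀ n, L n < L (n + D)) (hT : ∀ n, T (n + 1) = T n + L n) (h0 : 1 ≤ T 0) :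
    ∃ C, ∀ n, (n + 1) ^ 2 ≤ C * T n := by
  have hmono : Monotone L := monotone_nat_of_le_succ hL
  have hD0 : 0 < D := by
    rcases Nat.eq_zero_or_pos D with h1 | h1
    · subst h1
      exact absurd (hD 0) (lt_irrefl _)
    · exact h1
  have h1 : ∀ k, k ≤ L (k * D) := by
    intro k
    induction k with
    | zero => exact Nat.zero_le _
    | succ k ih =>
      have h2 := hD (k * D)
      have h3 : k * D + D = (k + 1) * D := by ring
      rw [h3] at h2
      omega
  have h2 : ∀ n, n + 1 ≤ D * L n + D := by
    intro n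
    have h3 := h1 (n / D)
    have h4 : L (n / D * D) ≤ L n := hmono (Nat.div_mul_le_self n D)
    have h5 : n < D * (n / D + 1) := by
      have := Nat.lt_div_mul_add (a := n) hD0
      calc n < n / D * D + D := this
        _ = D * (n / D + 1) := by ring
    have h6 : D * (n / D + 1) ≤ D * (L n + 1) := Nat.mul_le_mul_left D (by omega)
    calc n + 1 ≤ D * (n / D + 1) := h5
      _ ≤ D * (L n + 1) := h6
      _ = D * L n + D := by ring
  have h3 : ∀ n, n * (n + 1) + 2 * D ≤ 2 * D * T n + 2 * D * n := by
    intro n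
    induction n with
    | zero => nlinarith
    | succ n ih =>
      rw [hT n]
      have h4 := h2 n
      nlinarith
  have h4 : ∀ n, 1 ≤ T n := by
    intro n
    induction n with
    | zero => exact h0
    | succ n ih =>
      rw [hT n]
      omega
  refine ⟨16 * D ^ 2 + 8 * D, fun n => ?_⟩
  have h5 := h3 n
  have h6 := h4 n
  rcases Nat.lt_or_ge n (4 * D) with h7 | h7
  · calc (n + 1) ^ 2 ≤ (4 * D) ^ 2 := Nat.pow_le_pow_left h7 2
      _ = 16 * D ^ 2 * 1 := by ring
      _ ≤ (16 * D ^ 2 + 8 * D) * T n := Nat.mul_le_mul (by omega) h6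
  · have h8 : 4 * (2 * D * n) ≤ 2 * (n * n) := by nlinarith
    have h9 : (n + 1) ^ 2 ≤ 8 * D * T n := by nlinarith
    calc (n + 1) ^ 2 ≤ 8 * D * T n := h9
      _ ≤ (16 * D ^ 2 + 8 * D) * T n := Nat.mul_le_mul_right _ (by omega)

/-- Either the rows are bounded, or they grow at least once in every `Nat.card (A × ZMod m)` steps
(`stagnation`). -/
theorem growth_dichotomy [Finite A] [NeZero m] (h : Rows m κ g pre row) {w : ℕ → A}
    (hw : ∀ (n i : ℕ) (hi : i < (pre n).length), (pre n)[i] = w i) :
    (∃ N P : ℕ, 0 < P ∧ ∀ i ≥ N, w (i + P) = w i) ∨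
      ∃ C, ∀ n, (n + 1) ^ 2 ≤ C * (pre n).length := by
  have hL : ∀ n, (row n).length ≤ (row (n + 1)).length := by
    intro n
    rw [h.row_succ n]
    exact img_length_le h.hg (pre n).length (row n)
  have hmono : Monotone fun n => (row n).length := monotone_nat_of_le_succ hL
  by_cases hst : ∃ n, ∀ t ≤ Nat.card (A × ZMod m), (row (n + t)).length = (row n).length
  · left
    obtain ⟨n, hn⟩ := hst
    refine periodic_of_bounded h hw (B := (row n).length) fun k => ?_
    have h1 := stagnation h n hn k
    rw [← h1]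
    exact hmono (Nat.le_add_left k n)
  · right
    push Not at hst
    refine quadratic_of_growing (L := fun n => (row n).length) (T := fun n => (pre n).length)
      (D := Nat.card (A × ZMod m)) hL (fun n => ?_) (fun n => ?_) ?_
    · obtain ⟨t, ht, hne⟩ := hst n
      have h1 : (row n).length ≤ (row (n + t)).length := hmono (Nat.le_add_right n t)
      have h2 : (row (n + t)).length ≤ (row (n + Nat.card (A × ZMod m))).length :=
        hmono (Nat.add_le_add_left ht n)
      exact lt_of_lt_of_le (lt_of_le_of_ne h1 (Ne.symm hne)) h2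
    · rw [h.pre_succ n, List.length_append]
    · rw [h.pre0]

end Pool.Agent.W_5d512e_alt
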