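import Pool.Agent.W_5d512e_alt.P1
import Pool.Agent.W_MP_5d512e_dic.Hard

/-!
# Every dgsm word is a filter of the word of a dgsm whose letters act by rotations
-/

set_option autoImplicit false

namespace Pool.Agent.W_5d512e_alt

open Pool.Agent.W_MP_5d512e_h33 Pool.Agent.W_5d512e_h80 Pool.Agent.W_MP_5d512e_dic

/-- As `log_of_XS`. -/
theorem filterOf_XS {S : Type} {d : ℕ} (Y : Sys S (Fin (d + 1))) (M e : ℕ)
    (hM : ∀ q x, (Y.out q x).length ≤ M) (hu : Y.u.length ≤ M) {D : ℕ}
    (eq : Lt2 (Gt S d M e) (Lb d e) 4 ≃ Fin D) :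
    FilterOf ((XS Y M e).map eq).lim Y.lim := by
  obtain ⟨B, hB⟩ := chain Y M e hM hu
  have hget : ∀ (m i : ℕ) (hi : i < (((XS Y M e).map eq).T m).length),
      (((XS Y M e).map eq).T m)[i] = ((XS Y M e).map eq).lim i :=
    fun m i hi => ((XS Y M e).map eq).T_getElem hi
  have hfil : ∀ m, (((XS Y M e).map eq).T m).filterMap
      (fun x => (mac (M := M) (e := e) Y).psi Y.a (eq.symm x)) =
      ((XS Y M e).T m).filterMap ((mac (M := M) (e := e) Y).psi Y.a) := by
    intro m
    rw [Sys.map_T, List.filterMap_map]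
    congr 1
    funext x
    simp
  refine filterOf_of_poly (fun x => (mac (M := M) (e := e) Y).psi Y.a (eq.symm x))
    (2 * B + 1) (e + 3) ?_ ?_
  · intro N j hj
    obtain ⟨t, L, T, h1, h2, h3, -⟩ := hB N
    have hTt : (XS Y M e).T t = T := by rw [Sys.T, h1]
    have h4 : (List.range N).map ((XS Y M e).map eq).lim <+: ((XS Y M e).map eq).T t := by
      have hl := ((XS Y M e).map eq).T_length t
      have h5 : ((XS Y M e).map eq).T t =
          (List.range (((XS Y M e).map eq).T t).length).map ((XS Y M e).map eq).lim :=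
        out_eq (hget _)
      rw [h5]
      exact prefix_range _ (by omega)
    have h5 := h4.filterMap (fun x => (mac (M := M) (e := e) Y).psi Y.a (eq.symm x))
    rw [hfil, hTt, h2] at h5
    rw [h5.getElem hj]
    exact Y.T_getElem _
  · intro n
    obtain ⟨t, L, T, h1, h2, h3, h4, h5, h6, h7, h8⟩ := hB n
    have hTt : (XS Y M e).T t = T := by rw [Sys.T, h1]
    have hlen : (((XS Y M e).map eq).T t).length ≤ (2 * B + 1) * (n + 1) ^ (e + 3) := by
      rw [((XS Y M e).map eq).T_length, Sys.map_K]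
      have hK : (XS Y M e).K t = 2 * 2 ^ L := by
        rw [Sys.K, h1]
        simp only [Pool.Agent.W_MP_5d512e_dic.RS2.emb, List.length_map, can, length_wd]
      rw [hK]
      have h6 : n + 1 ≤ (n + 1) ^ (e + 3) := Nat.le_self_pow (by omega) _
      have h7 : B * (n + 1) ≤ B * (n + 1) ^ (e + 3) := Nat.mul_le_mul_left _ h6
      have h8 : 1 ≤ (n + 1) ^ (e + 3) := Nat.one_le_pow _ _ (by omega)
      have h9 : (2 * B + 1) * (n + 1) ^ (e + 3) = B * (n + 1) ^ (e + 3) + B * (n + 1) ^ (e + 3) + (n + 1) ^ (e + 3) := by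
        ring
      rw [h9]
      omega
    have h6 := prefix_iff_range (W := ((XS Y M e).map eq).lim) (hget t) _ hlen
    have h7 := (h6.filterMap (fun x => (mac (M := M) (e := e) Y).psi Y.a (eq.symm x))).length_le
    rw [hfil, hTt, h2, Y.T_length] at h7
    omega

/-- As `QQ_of_H`. -/
theorem exists_act {p k : ℕ} {F : Set (Fin p → Fin p)} {e a b : Fin p → Fin p} (he : e ∈ F)
    (ha : a ∈ F) (hb : b ∈ F) {s t : Fin p} (hst : s ≠ t) (es : e s = s) (et : e t = t)
    (as : a s = t) (bt' : b t = s) {p' d : ℕ} (Y : Sys (Fin p') (Fin d)) :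
    ∃ (D : ℕ) (Z : Sys (Fin p) (Fin D)), (∀ x, (fun s => Z.δ s x) ∈ F) ∧
      (∃ C, ∀ i, Z.K i ^ (k + 1) ≤ C * (i + 1)) ∧ FilterOf Z.lim Y.lim := by
  obtain ⟨d, rfl⟩ : ∃ d', d = d' + 1 := ⟨d - 1, by have := Y.a.pos; omega⟩
  obtain ⟨M, hM⟩ := Y.exists_bound
  have hu : Y.u.length ≤ M := by
    have := hM Y.q0 Y.a
    rw [Y.ha, List.length_cons] at this
    omega
  obtain ⟨D, ⟨eq⟩⟩ :=
    Finite.exists_equiv_fin (Lt2 (Gt (Fin p') d M (k + 1)) (Lb d (k + 1)) 4)
  have hfilter := filterOf_XS Y M (k + 1) hM hu eq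
  obtain ⟨D1, hD1⟩ := XS_growth Y M (k + 1) hM hu
  set X := (XS Y M (k + 1)).map eq with hX
  have hXK : X.K = (XS Y M (k + 1)).K := Sys.map_K _ _
  let θ : Option Bool → Fin p := fun q =>
    match q with
    | some true => t
    | _ => s
  let ρ : Fin p → Option Bool := fun r => if r = t then some true else some false
  let ac : Lt2 (Gt (Fin p') d M (k + 1)) (Lb d (k + 1)) 4 → Ac :=
    (mac (M := M) (e := k + 1) Y).ac
  let δ2 : Fin p → Fin D → Fin p := fun r x =>
    match ac (eq.symm x) with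
    | .id => e r
    | .up => a r
    | .dn => b r
  have hρ : ∀ q : Option Bool, q ≠ none → ρ (θ q) = q := by
    intro q hq
    match q with
    | none => exact absurd rfl hq
    | some true => simp [ρ, θ]
    | some false => simp [ρ, θ, hst]
  have h0 : ρ (θ X.q0) = X.q0 := hρ _ (by
    show (some false : Option Bool) ≠ none
    simp)
  have halive : ∀ i, (X.st i).1 ≠ none := by
    intro i
    rw [hX, Sys.map_st]
    exact XS_alive Y M (k + 1) hM hu i
  have hδ : ∀ q x, q ≠ none → X.δ q x ≠ none → δ2 (θ q) x = θ (X.δ q x) := by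
    intro q x hq hq'
    have e1 : X.δ q x = act (ac (eq.symm x)) q := rfl
    rw [e1] at hq' ⊢
    show (match ac (eq.symm x) with
      | .id => e (θ q)
      | .up => a (θ q)
      | .dn => b (θ q)) = _
    revert hq'
    generalize ac (eq.symm x) = y
    intro hq'
    match q, y with
    | none, _ => exact absurd rfl hq
    | some true, .id => exact et
    | some false, .id => exact es
    | some true, .up => exact absurd rfl hq'
    | some false, .up => exact as
    | some true, .dn => exact bt'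
    | some false, .dn => exact absurd rfl hq'
  have h00 : (some false : Option Bool) ≠ none := by simp
  rw [← tra_lim X θ ρ δ2 h0 (fun q => q ≠ none) h00 halive hρ hδ] at hfilter
  refine ⟨D, tra X θ ρ δ2 h0, ?_, ⟨D1, fun i => ?_⟩, hfilter⟩
  · intro x
    show (fun r => (match ac (eq.symm x) with
      | .id => e r
      | .up => a r
      | .dn => b r)) ∈ F
    cases ac (eq.symm x) with
    | id => exact he
    | up => exact ha
    | dn => exact hb
  · have e1 : (tra X θ ρ δ2 h0).K i = X.K i := by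
      rw [Sys.K, tra_st X θ ρ δ2 h0 (fun q => q ≠ none) h00 halive hρ hδ, Sys.K]
    rw [e1, hXK]
    exact hD1 i

end Pool.Agent.W_5d512e_alt
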