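import Pool.Agent.W_5d512e_alt.B4
import Pool.Agent.W_5d512e_alt.B7
import Pool.Agent.W_5d512e_alt.P2
import Pool.Agent.W_5d512e_alt.G6

/-!
# The theorem
-/

set_option autoImplicit false

namespace Pool.Agent.W_5d512e_alt

open Pool.Agent.W_MP_5d512e_h33 Pool.Agent.W_5d512e_h80
open Pool.Agent.W_MP_5d512e_dic (growth_of_K)

/-- `Sys.map` commutes with the iterates. -/
theorem map_run {S A B : Type} (e : A ≃ B) (Z : Sys S A) (q : S) (u : List A) :
    run (Z.map e).δ (Z.map e).out q (u.map e) =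
      ((run Z.δ Z.out q u).1, (run Z.δ Z.out q u).2.map e) := by
  induction u generalizing q with
  | nil => rfl
  | cons x u ih =>
    have h1 : (Z.map e).δ q (e x) = Z.δ q x := by simp [Sys.map]
    have h2 : (Z.map e).out q (e x) = (Z.out q x).map e := by simp [Sys.map]
    rw [List.map_cons, run_cons, run_cons, h1, h2, ih, List.map_append]

theorem map_iterate {S A B : Type} (e : A ≃ B) (Z : Sys S A) (j : ℕ) :
    (Z.map e).tr^[j] [(Z.map e).a] = (Z.tr^[j] [Z.a]).map e := by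
  induction j with
  | zero => rfl
  | succ j ih =>
    rw [Function.iterate_succ_apply', Function.iterate_succ_apply', ih]
    exact congrArg Prod.snd (map_run e Z Z.q0 _)

theorem map_t {S A B : Type} (e : A ≃ B) (Z : Sys S A) (j : ℕ) : (Z.map e).t j = Z.t j := by
  rw [Sys.t, map_iterate, List.length_map, Sys.t]

theorem trans_eq_tr {p D : ℕ} (Z : Sys (Fin p) (Fin D)) (u : List (Fin D)) :
    trans Z.δ Z.q0 Z.out u = Z.tr u := rfl

/-- A word generated by a transducer whose letters act by rotations is a filter of a word generated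
by relabelling and one morphism. -/
theorem relabel_of_rot {n k d : ℕ} (hn : 1 ≤ n) {Y : Sys (Fin (n + 1)) (Fin d)}
    (hF : ∀ x, (fun s => Y.δ s x) ∈ {f | ∃ b : Fin (n + 1), f = fun s => s + b})
    (hK : ∃ D, ∀ i, Y.K i ^ (k + 1) ≤ D * (i + 1)) :
    ∃ (N : ℕ) (κ : Fin N → Fin N) (g : Fin N → List (Fin N)) (a : Fin N) (W : ℕ → Fin N),
      Generates (n + 1) κ g a W ∧
      (∃ C, ∀ j, ((step (n + 1) κ g)^[j] [a]).length ^ k ≤ C * (j + 1) ^ (2 * k + 1)) ∧
      FilterOf W Y.lim := by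
  obtain ⟨D, hD⟩ := hK
  choose c hc using hF
  have hc' : ∀ s x, Y.δ s x = s + c x := fun s x => congrFun (hc x) s
  obtain ⟨N, ⟨e⟩⟩ := Finite.exists_equiv_fin (Al n d)
  set κ : Fin N → Fin N := fun z => e (Al.kap (e.symm z)) with hκ
  set g : Fin N → List (Fin N) := fun z => (Al.gm Y c (e.symm z)).map e with hg
  have hδ : ((Al.X Y c).map e).δ = fun (s : Fin (n + 1)) (_ : Fin N) => s + 1 := rfl
  have hout : ((Al.X Y c).map e).out = cout n κ g := by
    funext s z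
    show (Al.gm Y c (if s = Fin.last n then Al.kap (e.symm z) else e.symm z)).map e = _
    rw [cout]
    split_ifs
    · show _ = (Al.gm Y c (e.symm (e (Al.kap (e.symm z))))).map e
      rw [Equiv.symm_apply_apply]
    · rfl
  have hI := ((Al.X Y c).map e).iterates
  have hq : ((Al.X Y c).map e).q0 = 0 := rfl
  have hstep : ∀ u, step (n + 1) κ g u = ((Al.X Y c).map e).tr u := by
    intro u
    rw [step_eq_trans, ← trans_eq_tr, hδ, hout, hq]
  have hG : Generates (n + 1) κ g ((Al.X Y c).map e).a ((Al.X Y c).map e).lim := by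
    rw [generates_iff n hn]
    rw [hδ, hout, hq] at hI
    exact hI
  refine ⟨N, κ, g, _, _, hG, ⟨(6 * (n + 1)) ^ k * D, fun j => ?_⟩, Al.filterOf_X hc' e⟩
  have h1 : (step (n + 1) κ g)^[j] [((Al.X Y c).map e).a] =
      ((Al.X Y c).map e).tr^[j] [((Al.X Y c).map e).a] := by
    have : step (n + 1) κ g = ((Al.X Y c).map e).tr := funext hstep
    rw [this]
  have h2 : ((step (n + 1) κ g)^[j] [((Al.X Y c).map e).a]).length = (Al.X Y c).t j := by
    rw [h1]
    exact map_t e (Al.X Y c) j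
  rw [h2]
  calc (Al.X Y c).t j ^ k ≤ (6 * (n + 1) * (j + 1) * Y.t j) ^ k :=
        Nat.pow_le_pow_left (Al.t_le hc' j) k
    _ = (6 * (n + 1)) ^ k * (j + 1) ^ k * Y.t j ^ k := by rw [mul_pow, mul_pow]
    _ ≤ (6 * (n + 1)) ^ k * (j + 1) ^ k * (D * (j + 1) ^ (k + 1)) :=
        Nat.mul_le_mul_left _ (growth_of_K Y hD j)
    _ = (6 * (n + 1)) ^ k * D * (j + 1) ^ (2 * k + 1) := by ring

theorem exists_relabel {n : ℕ} (hn : 1 ≤ n) (k : ℕ) {d : ℕ} {w : ℕ → Fin d} (hw : PolyTime w) :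
    ∃ (N : ℕ) (κ : Fin N → Fin N) (g : Fin N → List (Fin N)) (a : Fin N) (W : ℕ → Fin N),
      Generates (n + 1) κ g a W ∧
      (∃ C, ∀ j, ((step (n + 1) κ g)^[j] [a]).length ^ k ≤ C * (j + 1) ^ (2 * k + 1)) ∧
      FilterOf W w := by
  obtain ⟨p, D, Y, hY⟩ := sys_of_polyTime hw
  have h01 : (0 : Fin (n + 1)) ≠ 1 := by
    intro h0
    obtain ⟨n, rfl⟩ : ∃ n', n = n' + 1 := ⟨n - 1, by omega⟩
    exact absurd h0 Fin.zero_ne_one
  obtain ⟨D', Z, h1, h2, h3⟩ := exists_act (k := k)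
    (F := {f | ∃ b : Fin (n + 1), f = fun s => s + b}) (e := fun s => s + 0)
    (a := fun s => s + 1) (b := fun s => s + (-1)) ⟨0, rfl⟩ ⟨1, rfl⟩ ⟨-1, rfl⟩ (s := 0) (t := 1)
    h01 (by simp) (by simp) (by simp) (by simp) Y
  obtain ⟨N, κ, g, a, W, h4, h5, h6⟩ := relabel_of_rot hn h1 h2
  exact ⟨N, κ, g, a, W, h4, h5, FilterOf.trans (FilterOf.trans h6 h3) hY⟩

theorem polyTime_of_iterates {D p : ℕ} {δ : Fin p → Fin D → Fin p} {q0 : Fin p}
    {out : Fin p → Fin D → List (Fin D)} {a : Fin D} {W : ℕ → Fin D}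
    (hI : Iterates δ q0 out a W) : PolyTime W := by
  obtain ⟨Y, rfl⟩ := exists_sys_of_iterates hI
  exact polyTime_lim Y

/-- The main theorem. -/
theorem main_theorem (m k : ℕ) (hm : 2 ≤ m) :
    (∀ (d : ℕ) (w : ℕ → Fin d), PolyTime w ↔
      ∃ (D : ℕ) (κ : Fin D → Fin D) (g : Fin D → List (Fin D)) (a : Fin D) (W : ℕ → Fin D),
        Generates m κ g a W ∧
        (∃ C, ∀ n, ((step m κ g)^[n] [a]).length ^ k ≤ C * (n + 1) ^ (2 * k + 1)) ∧
        FilterOf W w) ∧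
    ((∀ (d p : ℕ) (δ : Fin p → Fin d → Fin p) (q0 : Fin p)
        (out : Fin p → Fin d → List (Fin d)) (a : Fin d) (w : ℕ → Fin d),
        Iterates δ q0 out a w → LogSpace w) ↔
      (∀ (d : ℕ) (κ : Fin d → Fin d) (g : Fin d → List (Fin d)) (a : Fin d) (w : ℕ → Fin d),
        Generates m κ g a w →
        (∃ C, ∀ n, ((step m κ g)^[n] [a]).length ^ k ≤ C * (n + 1) ^ (2 * k + 1)) →
        LogSpace w)) ∧
    (∀ (d : ℕ) (κ : Fin d → Fin d) (g : Fin d → List (Fin d)) (a : Fin d) (w : ℕ → Fin d),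
      Generates m κ g a w →
      (∃ N P : ℕ, 0 < P ∧ ∀ i ≥ N, w (i + P) = w i) ∨
        ∃ C, ∀ n, (n + 1) ^ 2 ≤ C * ((step m κ g)^[n] [a]).length) := by
  obtain ⟨n, rfl⟩ : ∃ n, m = n + 1 := ⟨m - 1, by omega⟩
  refine ⟨fun d w => ⟨exists_relabel (by omega) k, ?_⟩, ⟨?_, ?_⟩, ?_⟩
  · rintro ⟨D, κ, g, a, W, h1, -, h2⟩
    exact PolyTime.filter h2 (polyTime_of_iterates ((generates_iff n (by omega) κ g a W).1 h1))
  · intro h d κ g a w hG _
    exact h d (n + 1) _ _ _ a w ((generates_iff n (by omega) κ g a w).1 hG)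
  · intro h d p δ q0 out a w hI
    obtain ⟨N, κ, g, a', W, h1, h2, h3⟩ :=
      exists_relabel (n := n) (by omega) k (polyTime_of_iterates hI)
    exact logSpace_filter h3 (h N κ g a' W h1 h2)
  · intro d κ g a w hG
    obtain ⟨row, hr⟩ := exists_rows hG
    exact growth_dichotomy hr hG.limit

end Pool.Agent.W_5d512e_alt
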