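import Pool.Agent.W_5d512e_alt.GDefs

/-!
# Task G1: the rows of a generated word
-/

set_option autoImplicit false

namespace Pool.Agent.W_5d512e_alt

/-- TASK G1 (all theorems of this file). -/
theorem step_eq_img {A : Type} (m : ℕ) (κ : A → A) (g : A → List A) (u : List A) :
    step m κ g u = img m κ g 0 u := by
  unfold step relabel img
  simp only [Nat.zero_add]

theorem img_append {A : Type} (m : ℕ) (κ : A → A) (g : A → List A) (j : ℕ) (u v : List A) :
    img m κ g j (u ++ v) = img m κ g j u ++ img m κ g (j + u.length) v := by
  unfold img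
  rw [List.mapIdx_append, List.flatMap_append]
  congr 2
  refine congrArg (fun f => List.mapIdx f v) ?_
  funext i x
  have h : j + (i + u.length) + 1 = j + u.length + i + 1 := by omega
  rw [h]

theorem img_length_le {A : Type} {m : ℕ} {κ : A → A} {g : A → List A} (hg : ∀ x, g x ≠ [])
    (j : ℕ) (u : List A) : u.length ≤ (img m κ g j u).length := by
  induction u generalizing j with
  | nil => simp
  | cons x u ih =>
    have h1 : x :: u = [x] ++ u := rfl
    rw [h1, img_append, List.length_append, List.length_append]
    have h2 := ih (j + [x].length)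
    have h3 : 1 ≤ (img m κ g j [x]).length := by
      have h4 : img m κ g j [x] = g (if m ∣ j + 0 + 1 then κ x else x) := by
        simp [img]
      rw [h4]
      exact List.length_pos_iff.2 (hg _)
    have h5 : [x].length = 1 := rfl
    omega

/-- `pre n = (step m κ g)^[n] [a]`, `row 0` is the tail of `step m κ g [a]`, which is nonempty
because of `unbounded`; `pre (n + 2) = step (pre n ++ row n) = pre (n + 1) ++ img |pre n| (row n)`. -/
theorem exists_rows {d m : ℕ} {κ : Fin d → Fin d} {g : Fin d → List (Fin d)} {a : Fin d}
    {w : ℕ → Fin d} (h : Generates m κ g a w) :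
    ∃ row, Rows m κ g (fun n => (step m κ g)^[n] [a]) row := by
  obtain ⟨t, ht⟩ := h.start
  set pre : ℕ → List (Fin d) := fun n => (step m κ g)^[n] [a] with hpre
  have hsucc : ∀ n, pre (n + 1) = step m κ g (pre n) := fun n => by
    simp only [hpre, Function.iterate_succ_apply']
  have hp0 : pre 0 = [a] := rfl
  let row : ℕ → List (Fin d) := fun n => Nat.rec t (fun k r => img m κ g (pre k).length r) n
  have hr0 : row 0 = t := rfl
  have hrs : ∀ n, row (n + 1) = img m κ g (pre n).length (row n) := fun n => rfl
  have hps : ∀ n, pre (n + 1) = pre n ++ row n := by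
    intro n
    induction n with
    | zero => rw [hsucc, hp0, hr0, ht]
    | succ n ih =>
      calc pre (n + 1 + 1) = step m κ g (pre n ++ row n) := by rw [hsucc, ih]
        _ = step m κ g (pre n) ++ img m κ g (pre n).length (row n) := by
          rw [step_eq_img, img_append, step_eq_img, Nat.zero_add]
        _ = pre (n + 1) ++ row (n + 1) := by rw [hsucc n, hrs]
  refine ⟨row, h.nonerasing, rfl, ?_, hps, hrs⟩
  intro h0
  rw [hr0] at h0
  rw [h0, List.append_nil] at ht
  have hfix : ∀ n, pre n = [a] := by
    intro n
    induction n with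
    | zero => rfl
    | succ n ih => rw [hsucc, ih, ← ht]
  obtain ⟨n, hn⟩ := h.unbounded 2
  have h1 : (pre n).length = 1 := by rw [hfix n]; rfl
  have h2 : 2 ≤ (pre n).length := hn
  omega

end Pool.Agent.W_5d512e_alt
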