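import Pool.Agent.W_5d512e_alt.GDefs

/-!
# Task G3: orbits in a finite set
-/

set_option autoImplicit false

namespace Pool.Agent.W_5d512e_alt

/-- Pigeonhole for the first `Nat.card B + 1` members of an orbit. -/
private lemma G3_repeat {B : Type} [Finite B] (T : B → B) (z : B) :
    ∃ i j, i < j ∧ j ≤ Nat.card B ∧ T^[i] z = T^[j] z := by
  classical
  haveI := Fintype.ofFinite B
  have h1 : Fintype.card B < Fintype.card (Fin (Nat.card B + 1)) := by
    rw [Fintype.card_fin, Nat.card_eq_fintype_card]
    omega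
  obtain ⟨a, b, hne, hab⟩ := Fintype.exists_ne_map_eq_of_card_lt
    (fun s : Fin (Nat.card B + 1) => T^[(s : ℕ)] z) h1
  have hne' : (a : ℕ) ≠ b := fun h => hne (Fin.ext h)
  rcases Nat.lt_or_gt_of_ne hne' with h2 | h2
  · exact ⟨a, b, h2, by omega, hab⟩
  · exact ⟨b, a, h2, by omega, hab.symm⟩

/-- TASK G3. Pigeonhole: `T^[i] z = T^[j] z` for some `i < j ≤ Nat.card B`; then strong
induction. -/
theorem orbit_property {B : Type} [Finite B] (T : B → B) (P : B → Prop) (z : B)
    (h : ∀ t < Nat.card B, P (T^[t] z)) (t : ℕ) : P (T^[t] z) := by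
  obtain ⟨i, j, hij, hj, he⟩ := G3_repeat T z
  induction t using Nat.strong_induction_on with
  | _ t ih =>
    rcases Nat.lt_or_ge t (Nat.card B) with h1 | h1
    · exact h t h1
    · have h2 : T^[t] z = T^[t - j + i] z := by
        have e1 : t = t - j + j := by omega
        have e2 : T^[t] z = T^[t - j] (T^[j] z) := by
          rw [← Function.iterate_add_apply, ← e1]
        rw [e2, ← he, ← Function.iterate_add_apply]
      rw [h2]
      exact ih (t - j + i) (by omega)

end Pool.Agent.W_5d512e_alt
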