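import Pool.Agent.W_5d512e_alt.G1
import Pool.Agent.W_5d512e_alt.G2
import Pool.Agent.W_5d512e_alt.G3

/-!
# Task G4: rows which do not grow for some time do not grow at all
-/

set_option autoImplicit false

namespace Pool.Agent.W_5d512e_alt

variable {A : Type} {m : ℕ} {κ : A → A} {g : A → List A} {pre row : ℕ → List A}

private theorem g4_lab_iter (h : Rows m κ g pre row) (n t : ℕ)
    (ht : ∀ s ≤ t, (row (n + s)).length = (row n).length) :
    lab m (pre (n + t)).length (row (n + t)) =
      (lab m (pre n).length (row n)).map ((tl m κ g (row n).length)^[t]) := by
  induction t with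
  | zero => simp
  | succ t ih =>
    have ih' := ih (fun s hs => ht s (Nat.le_succ_of_le hs))
    have h1 : (row (n + t)).length = (row n).length := ht t (Nat.le_succ t)
    have h2 : row (n + (t + 1)) = img m κ g (pre (n + t)).length (row (n + t)) :=
      h.row_succ (n + t)
    have h3 : pre (n + (t + 1)) = pre (n + t) ++ row (n + t) := h.pre_succ (n + t)
    have h4 : (img m κ g (pre (n + t)).length (row (n + t))).length = (row (n + t)).length := by
      rw [← h2, ht (t + 1) le_rfl, h1]
    have h5 := lab_step (gl_of_length h.hg h4)
    rw [h3, List.length_append, h2, h5, ih', List.map_map, h1, ← Function.iterate_succ']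

/-- TASK G4. As long as the length of the rows is `L`, `lab |pre n| (row n)` develops by
`tl m κ g L` applied to each element (`lab_step`; `|pre (n + 1)| = |pre n| + L`); use
`orbit_property` for each element of `lab |pre n| (row n)` with `P z := (gl z).length = 1`, and
then induction on `t`. -/
theorem stagnation [Finite A] [NeZero m] (h : Rows m κ g pre row) (n : ℕ)
    (hn : ∀ t ≤ Nat.card (A × ZMod m), (row (n + t)).length = (row n).length) (t : ℕ) :
    (row (n + t)).length = (row n).length := by
  have hP : ∀ z ∈ lab m (pre n).length (row n), ∀ t : ℕ,
      (gl m κ g ((tl m κ g (row n).length)^[t] z)).length = 1 := by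
    intro z hz t
    refine orbit_property (tl m κ g (row n).length) (fun z => (gl m κ g z).length = 1) z ?_ t
    intro t ht
    have h1 := g4_lab_iter h n t (fun s hs => hn s (hs.trans ht.le))
    have h2 : (img m κ g (pre (n + t)).length (row (n + t))).length = (row (n + t)).length := by
      rw [← h.row_succ (n + t), hn t ht.le]
      exact hn (t + 1) ht
    refine gl_of_length h.hg h2 _ ?_
    rw [h1]
    exact List.mem_map_of_mem hz
  have key : ∀ t : ℕ, ∀ s ≤ t, (row (n + s)).length = (row n).length := by
    intro t
    induction t with
    | zero =>
      intro s hs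
      have : s = 0 := by omega
      subst this
      rfl
    | succ t ih =>
      intro s hs
      rcases Nat.lt_or_ge s (t + 1) with h1 | h1
      · exact ih s (by omega)
      · have h2 : s = t + 1 := by omega
        subst h2
        have h3 := g4_lab_iter h n t ih
        have h4 : row (n + (t + 1)) = img m κ g (pre (n + t)).length (row (n + t)) :=
          h.row_succ (n + t)
        rw [h4, length_of_gl (fun z hz => ?_), ih t le_rfl]
        rw [h3] at hz
        obtain ⟨y, hy, rfl⟩ := List.mem_map.1 hz
        exact hP y hy t
  exact key t t le_rfl

end Pool.Agent.W_5d512e_alt
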