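import Pool.Agent.W_5d512e_alt.Defs

/-!
# Growth: definitions
-/

set_option autoImplicit false

namespace Pool.Agent.W_5d512e_alt

variable {A : Type}

/-- The image of the word `u` which stands behind `j` letters. -/
def img (m : ℕ) (κ : A → A) (g : A → List A) (j : ℕ) (u : List A) : List A :=
  (u.mapIdx fun i x => if m ∣ j + i + 1 then κ x else x).flatMap g

/-- The letters of `u` with their positions modulo `m` (`u` stands behind `j` letters). -/
def lab (m : ℕ) (j : ℕ) (u : List A) : List (A × ZMod m) :=
  u.mapIdx fun i x => (x, ((j + i : ℕ) : ZMod m))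

open Classical in
/-- The image of a letter with a position. -/
noncomputable def gl (m : ℕ) (κ : A → A) (g : A → List A) (z : A × ZMod m) : List A :=
  g (if z.2 + 1 = 0 then κ z.1 else z.1)

/-- One step of a letter with a position whose image has length one, when the length of the row
is `L`. -/
noncomputable def tl (m : ℕ) (κ : A → A) (g : A → List A) (L : ℕ) (z : A × ZMod m) :
    A × ZMod m :=
  (((gl m κ g z).head?).getD z.1, z.2 + (L : ZMod m))

/-- Rows: `row n` is the part which the `n + 1`-st iteration adds, `pre n` is the word after `n`
iterations. -/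
structure Rows (m : ℕ) (κ : A → A) (g : A → List A) (pre row : ℕ → List A) : Prop where
  hg : ∀ x, g x ≠ []
  pre0 : (pre 0).length = 1
  row0 : row 0 ≠ []
  pre_succ : ∀ n, pre (n + 1) = pre n ++ row n
  row_succ : ∀ n, row (n + 1) = img m κ g (pre n).length (row n)

end Pool.Agent.W_5d512e_alt
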