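import Pool.Agent.W_5d512e_alt.A1

/-!
# The simulating system
-/

set_option autoImplicit false

namespace Pool.Agent.W_5d512e_alt

open Pool.Agent.W_MP_5d512e_h33

/-- The letters: start, pad, test letters, marked test letters. -/
inductive Al (n d : ℕ) : Type
  | st : Al n d
  | pd : Al n d
  | hd (x : Fin d) (j : Fin (n + 1)) : Al n d
  | mk (x : Fin d) (j : Fin (n + 1)) : Al n d

namespace Al

variable {n d : ℕ}

/-- The relabelling. -/
def kap : Al n d → Al n d
  | .hd x j => .mk x j
  | z => z

/-- The test letters of `x`. -/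
def hds (x : Fin d) : List (Al n d) :=
  (List.range (n + 1)).map fun i => Al.hd x (Fin.ofNat (n + 1) i)

/-- The cell of the letter `x`, with `l` pads before and `k` pads after the test letters. -/
def cell (x : Fin d) (l k : ℕ) : List (Al n d) :=
  List.replicate l .pd ++ (hds x ++ List.replicate k .pd)

/-- The cells of a word; the last one gets additional pads. -/
def em (c : Fin d → Fin (n + 1)) (t : Fin (n + 1)) : List (Fin d) → List (Al n d)
  | [] => []
  | [y] => cell y 0 (c y + t).val
  | y :: z :: ys => cell y 0 (c y).val ++ em c t (z :: ys)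

/-- The letters of the old word in the new word. -/
def phi (a : Fin d) : Al n d → Option (Fin d)
  | .st => some a
  | .hd x j => if j = 0 then some x else none
  | _ => none

/-- Cells of the letters of a word, with at most `B` pads before and after the test letters. -/
inductive Cells (c : Fin d → Fin (n + 1)) (B : ℕ) : List (Fin d) → List (Al n d) → Prop
  | nil : Cells c B [] []
  | cons {x : Fin d} {l k : ℕ} {W : List (Fin d)} {V : List (Al n d)}
      (hl : Fin.ofNat (n + 1) l = 0) (hk : Fin.ofNat (n + 1) k = c x) (hlB : l ≤ B) (hkB : k ≤ B)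
      (h : Cells c B W V) : Cells c B (x :: W) (cell x l k ++ V)

/-- A natural number in the class `g`, as a number of pads. -/
theorem ofNat_val (g : Fin (n + 1)) : Fin.ofNat (n + 1) g.val = g := by
  apply Fin.ext
  simp [Fin.ofNat, Nat.mod_eq_of_lt g.isLt]

theorem ofNat_add' (a b : ℕ) :
    Fin.ofNat (n + 1) (a + b) = Fin.ofNat (n + 1) a + Fin.ofNat (n + 1) b := by
  apply Fin.ext
  simp [Fin.ofNat, Fin.val_add, Nat.add_mod]

variable (Y : Sys (Fin (n + 1)) (Fin d)) (c : Fin d → Fin (n + 1))

/-- The state of the old system which corresponds to the residue `r`. -/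
def sg (r : Fin (n + 1)) : Fin (n + 1) := Y.δ Y.q0 Y.a + r - 1

/-- The morphism. -/
def gm : Al n d → List (Al n d)
  | .st => .st :: em c 0 Y.u
  | .pd => [.pd]
  | .hd _ _ => [.pd]
  | .mk x j => List.replicate (-j).val .pd ++ em c (1 + j - c x) (Y.out (sg Y (-1 - j)) x)

theorem hds_ne (x : Fin d) : (hds x : List (Al n d)) ≠ [] := by
  simp [hds]

theorem cell_ne (x : Fin d) (l k : ℕ) : (cell x l k : List (Al n d)) ≠ [] := by
  simp [cell, hds_ne]

theorem em_ne {t : Fin (n + 1)} {u : List (Fin d)} (hu : u ≠ []) : em c t u ≠ [] := by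
  cases u with
  | nil => exact absurd rfl hu
  | cons y u =>
    cases u with
    | nil => exact cell_ne _ _ _
    | cons z u => simp [em, cell_ne]

theorem gm_ne (z : Al n d) : gm Y c z ≠ [] := by
  cases z with
  | st => simp [gm]
  | pd => simp [gm]
  | hd x j => simp [gm]
  | mk x j =>
    intro h
    simp only [gm, List.append_eq_nil_iff] at h
    exact em_ne c (Y.hne _ _) h.2

/-- The simulating system. -/
def X : Sys (Fin (n + 1)) (Al n d) where
  δ := fun s _ => s + 1
  out := cout n kap (gm Y c)
  q0 := 0
  a := .st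
  u := em c 0 Y.u
  hne := fun _ _ => gm_ne Y c _
  ha := by
    show gm Y c (if (0 : Fin (n + 1)) = Fin.last n then kap .st else .st) = _
    split_ifs <;> rfl
  hu := em_ne c Y.hu

end Al

end Pool.Agent.W_5d512e_alt
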